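import Pool.Agent.W_MP_bbc525_pr.Final2

/-!
# Closed forms of the boundary curve
-/

namespace Pool.Agent.W_MP_bbc525_pr

/-- `κ(q) = log ((1-q)/q) / (1 - 2 q)`, with `κ(1/2) = 2`. -/
noncomputable def kappa (q : ℝ) : ℝ :=
  if q = 1 / 2 then 2 else Real.log ((1 - q) / q) / (1 - 2 * q)

theorem kq_eq_kappa {q : ℝ} (hq : 0 < q) (hq1 : q < 1) : kq q = kappa q := by
  unfold kappa
  split_ifs with h
  · subst h; norm_num [kq, kap]
  · have h1 : (1 - 2 * q) ≠ 0 := fun h2 => h (by linarith)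
    rw [eq_div_iff h1, kq_mul hq hq1, logit, Real.log_div (by linarith) hq.ne']
    ring

theorem logit_eq {p : ℝ} (hp : 0 < p) (hp1 : p < 1) : Real.log (p / (1 - p)) = logit p := by
  rw [logit, Real.log_div hp.ne' (by linarith)]

/-- The curve form of the condition. -/
theorem curve_iff {p q c : ℝ} (hp : 0 < p) (hp1 : p < 1) (hq : 0 < q) (hq1 : q < 1)
    (hh : q ≠ 1 / 2) :
    logit q - logit p ≤ c * q * kappa q ↔
      1 ≤ (1 + (q⁻¹ - 1) ^ (1 + c * q / (1 - 2 * q))) * p := by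
  have h1 : (1 - 2 * q) ≠ 0 := fun h2 => hh (by linarith)
  have h1q : 0 < 1 - q := by linarith
  have h1p : 0 < 1 - p := by linarith
  have e1 : q⁻¹ - 1 = (1 - q) / q := by field_simp
  have hB : 0 < (1 - q) / q := by positivity
  have e2 : kappa q = Real.log ((1 - q) / q) / (1 - 2 * q) := by
    unfold kappa; rw [if_neg hh]
  have e3 : logit q = - Real.log ((1 - q) / q) := by
    rw [logit, Real.log_div h1q.ne' hq.ne']; ring
  have e4 : logit p = - Real.log ((1 - p) / p) := by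
    rw [logit, Real.log_div h1p.ne' hp.ne']; ring
  set ℓ := Real.log ((1 - q) / q) with hℓ
  have e5 : logit q - logit p ≤ c * q * kappa q ↔
      Real.log ((1 - p) / p) ≤ (1 + c * q / (1 - 2 * q)) * ℓ := by
    rw [e2, e3, e4]
    have : c * q * (ℓ / (1 - 2 * q)) = (c * q / (1 - 2 * q)) * ℓ := by ring
    rw [this]
    constructor <;> intro h <;> nlinarith
  rw [e5, e1]
  have hP : 0 < (1 - p) / p := by positivity
  have e6 : Real.log ((1 - p) / p) ≤ (1 + c * q / (1 - 2 * q)) * ℓ ↔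
      (1 - p) / p ≤ ((1 - q) / q) ^ (1 + c * q / (1 - 2 * q)) := by
    rw [← Real.log_le_log_iff hP (Real.rpow_pos_of_pos hB _), Real.log_rpow hB]
  rw [e6, div_le_iff₀ hp]
  constructor <;> intro h <;> linarith

end Pool.Agent.W_MP_bbc525_pr
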