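import Mathlib

/-!
# One-variable inequalities for the binary entropy

With `X t = log (1 + t) - log (1 - t)` and `g t = ((1 + t) log (1 + t) + (1 - t) log (1 - t)) / 2`
we prove the inequality `(g t - g s) - κ (t² - s²) / 4 ≥ (κ / 6) (g t - g s)²` for
`0 ≤ s ≤ t ≤ 1`, with `κ = X s / s` (and `κ = 2` for `s = 0`).
-/

namespace Pool.Agent.W_MP_bbc525_pr

open Real Set

/-- `sinh x ≥ x + x³/6` for `x ≥ 0`. -/
theorem sinh_ge {x : ℝ} (hx : 0 ≤ x) : x + x ^ 3 / 6 ≤ Real.sinh x := by
  have h1 : ∀ y : ℝ, 0 ≤ y → 1 + y ^ 2 / 2 ≤ Real.cosh y := by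
    intro y hy
    have hmono : MonotoneOn (fun y : ℝ => Real.cosh y - (1 + y ^ 2 / 2)) (Ici 0) := by
      apply monotoneOn_of_deriv_nonneg (convex_Ici 0)
      · fun_prop
      · intro z _
        apply DifferentiableAt.differentiableWithinAt
        fun_prop
      · intro z hz
        have hd : HasDerivAt (fun y : ℝ => Real.cosh y - (1 + y ^ 2 / 2)) (Real.sinh z - z) z := by
          have h2 : HasDerivAt (fun y : ℝ => 1 + y ^ 2 / 2) z z := by
            have := ((hasDerivAt_pow 2 z).div_const 2).const_add 1
            exact this.congr_deriv (by norm_num)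
          exact (Real.hasDerivAt_cosh z).sub h2
        rw [hd.deriv]
        simp only [interior_Ici, mem_Ioi] at hz
        have := Real.self_le_sinh_iff.2 hz.le
        linarith
    have := hmono (mem_Ici.2 le_rfl) (mem_Ici.2 hy) hy
    simp at this
    linarith
  have hmono : MonotoneOn (fun y : ℝ => Real.sinh y - (y + y ^ 3 / 6)) (Ici 0) := by
    apply monotoneOn_of_deriv_nonneg (convex_Ici 0)
    · fun_prop
    · intro z _
      apply DifferentiableAt.differentiableWithinAt
      fun_prop
    · intro z hz
      have hd : HasDerivAt (fun y : ℝ => Real.sinh y - (y + y ^ 3 / 6))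
          (Real.cosh z - (1 + z ^ 2 / 2)) z := by
        have h2 : HasDerivAt (fun y : ℝ => y + y ^ 3 / 6) (1 + z ^ 2 / 2) z := by
          have := (hasDerivAt_id z).add ((hasDerivAt_pow 3 z).div_const 6)
          exact this.congr_deriv (by norm_num; ring)
        exact (Real.hasDerivAt_sinh z).sub h2
      rw [hd.deriv]
      simp only [interior_Ici, mem_Ioi] at hz
      have := h1 z hz.le
      linarith
  have := hmono (mem_Ici.2 le_rfl) (mem_Ici.2 hx) hx
  simp at this
  linarith

/-- `X t = log ((1 + t) / (1 - t))`. -/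
noncomputable def X (t : ℝ) : ℝ := Real.log (1 + t) - Real.log (1 - t)

/-- `g t = log 2 - H((1 - t)/2)`. -/
noncomputable def g (t : ℝ) : ℝ :=
  ((1 + t) * Real.log (1 + t) + (1 - t) * Real.log (1 - t)) / 2

theorem hasDerivAt_X {t : ℝ} (h1 : -1 < t) (h2 : t < 1) :
    HasDerivAt X (2 / (1 - t ^ 2)) t := by
  have ha : HasDerivAt (fun t : ℝ => Real.log (1 + t)) (1 / (1 + t)) t := by
    have := (((hasDerivAt_id t).const_add 1).log (by simp; linarith))
    simpa using this
  have hb : HasDerivAt (fun t : ℝ => Real.log (1 - t)) (-1 / (1 - t)) t := by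
    have := (((hasDerivAt_id t).const_sub 1).log (by simp; linarith))
    simpa using this
  refine (ha.sub hb).congr_deriv ?_
  have : (1 + t) ≠ 0 := by linarith
  have : (1 - t) ≠ 0 := by linarith
  have : (1 - t ^ 2) ≠ 0 := by
    have : (1 - t ^ 2) = (1 + t) * (1 - t) := by ring
    rw [this]; positivity
  field_simp
  ring

theorem hasDerivAt_g {t : ℝ} (h1 : -1 < t) (h2 : t < 1) :
    HasDerivAt g (X t / 2) t := by
  have ha : HasDerivAt (fun t : ℝ => (1 + t) * Real.log (1 + t)) (Real.log (1 + t) + 1) t := by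
    have h := (Real.hasDerivAt_mul_log (x := 1 + t) (by linarith)).comp t
      ((hasDerivAt_id t).const_add 1)
    simpa [Function.comp_def] using h
  have hb : HasDerivAt (fun t : ℝ => (1 - t) * Real.log (1 - t)) (-(Real.log (1 - t) + 1)) t := by
    have h := (Real.hasDerivAt_mul_log (x := 1 - t) (by linarith)).comp t
      ((hasDerivAt_id t).const_sub 1)
    simpa [Function.comp_def] using h
  refine ((ha.add hb).div_const 2).congr_deriv ?_
  simp only [X]
  ring

theorem continuous_g : Continuous g := by
  unfold g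
  have h := Real.continuous_mul_log
  have h1 : Continuous fun t : ℝ => (1 + t) * Real.log (1 + t) :=
    h.comp (continuous_const.add continuous_id)
  have h2 : Continuous fun t : ℝ => (1 - t) * Real.log (1 - t) :=
    h.comp (continuous_const.sub continuous_id)
  exact (h1.add h2).div_const 2

theorem g_zero : g 0 = 0 := by simp [g]

theorem X_zero : X 0 = 0 := by simp [X]

theorem sinh_X {t : ℝ} (h1 : -1 < t) (h2 : t < 1) : Real.sinh (X t) = 2 * t / (1 - t ^ 2) := by
  unfold X
  rw [← Real.log_div (by linarith) (by linarith), Real.sinh_log (by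
    apply div_pos <;> linarith)]
  have : (1 + t) ≠ 0 := by linarith
  have : (1 - t) ≠ 0 := by linarith
  have : (1 - t ^ 2) ≠ 0 := by
    have : (1 - t ^ 2) = (1 + t) * (1 - t) := by ring
    rw [this]; positivity
  field_simp
  ring

theorem X_ge {t : ℝ} (h1 : 0 ≤ t) (h2 : t < 1) : 2 * t + 2 * t ^ 3 / 3 ≤ X t := by
  have hmono : MonotoneOn (fun t : ℝ => X t - (2 * t + 2 * t ^ 3 / 3)) (Ico 0 1) := by
    apply monotoneOn_of_deriv_nonneg (convex_Ico 0 1)
    · intro z hz
      apply ContinuousAt.continuousWithinAt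
      exact ((hasDerivAt_X (by linarith [hz.1]) hz.2).continuousAt).sub (by fun_prop)
    · intro z hz
      rw [interior_Ico] at hz
      apply DifferentiableAt.differentiableWithinAt
      exact ((hasDerivAt_X (by linarith [hz.1]) hz.2).differentiableAt).sub (by fun_prop)
    · intro z hz
      rw [interior_Ico] at hz
      have hd : HasDerivAt (fun t : ℝ => X t - (2 * t + 2 * t ^ 3 / 3))
          (2 / (1 - z ^ 2) - (2 + 2 * z ^ 2)) z := by
        have h2 : HasDerivAt (fun y : ℝ => 2 * y + 2 * y ^ 3 / 3) (2 + 2 * z ^ 2) z := by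
          have := ((hasDerivAt_id z).const_mul 2).add (((hasDerivAt_pow 3 z).const_mul 2).div_const 3)
          exact this.congr_deriv (by norm_num; ring)
        exact (hasDerivAt_X (by linarith [hz.1]) hz.2).sub h2
      rw [hd.deriv]
      have h3 : 0 < 1 - z ^ 2 := by nlinarith [hz.1, hz.2]
      rw [sub_nonneg, le_div_iff₀ h3]
      nlinarith [sq_nonneg z, sq_nonneg (z^2)]
  have := hmono (show (0:ℝ) ∈ Ico 0 1 by simp) (show t ∈ Ico 0 1 from ⟨h1, h2⟩) h1
  simp [X_zero] at this
  linarith

theorem X_pos {t : ℝ} (h1 : 0 < t) (h2 : t < 1) : 0 < X t := by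
  have := X_ge h1.le h2
  have : 0 < 2 * t + 2 * t ^ 3 / 3 := by positivity
  linarith

/-- `g + 3 t / X t` is non-increasing on `(0, 1)`. -/
theorem key_antitone {s t : ℝ} (hs : 0 < s) (hst : s ≤ t) (ht : t < 1) :
    g t - g s ≤ 3 * (s / X s - t / X t) := by
  have hmono : MonotoneOn (fun t : ℝ => - (3 * (t / X t)) - g t) (Ioo 0 1) := by
    have hd : ∀ z ∈ Ioo (0:ℝ) 1, HasDerivAt (fun t : ℝ => - (3 * (t / X t)) - g t)
        (-(3 * ((1 * X z - z * (2 / (1 - z ^ 2))) / X z ^ 2)) - X z / 2) z := by
      intro z hz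
      have hX := hasDerivAt_X (t := z) (by linarith [hz.1]) hz.2
      have hXp := X_pos hz.1 hz.2
      have h1 := (((hasDerivAt_id z).div hX hXp.ne').const_mul 3).neg
      exact h1.sub (hasDerivAt_g (by linarith [hz.1]) hz.2)
    apply monotoneOn_of_deriv_nonneg (convex_Ioo 0 1)
    · intro z hz
      exact (hd z hz).continuousAt.continuousWithinAt
    · intro z hz
      rw [interior_Ioo] at hz
      exact (hd z hz).differentiableAt.differentiableWithinAt
    · intro z hz
      rw [interior_Ioo] at hz
      rw [(hd z hz).deriv]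
      have hXp := X_pos hz.1 hz.2
      have hsin := sinh_X (t := z) (by linarith [hz.1]) hz.2
      have hge := sinh_ge hXp.le
      have e1 : z * (2 / (1 - z ^ 2)) = Real.sinh (X z) := by rw [hsin]; ring
      rw [e1]
      have : -(3 * ((1 * X z - Real.sinh (X z)) / X z ^ 2)) - X z / 2 =
          3 * (Real.sinh (X z) - (X z + X z ^ 3 / 6)) / X z ^ 2 := by
        field_simp
        ring
      rw [this]
      apply div_nonneg _ (by positivity)
      linarith
  have := hmono (show s ∈ Ioo (0:ℝ) 1 from ⟨hs, by linarith⟩)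
    (show t ∈ Ioo (0:ℝ) 1 from ⟨by linarith, ht⟩) hst
  simp only at this
  linarith

theorem ratio_antitone {s t : ℝ} (hs : 0 < s) (hst : s ≤ t) (ht : t < 1) :
    t / X t ≤ s / X s := by
  have h := key_antitone hs hst ht
  have hg : g s ≤ g t := by
    have hmono : MonotoneOn g (Icc 0 t) := by
      apply monotoneOn_of_deriv_nonneg (convex_Icc 0 t) continuous_g.continuousOn
      · intro z hz
        rw [interior_Icc] at hz
        exact (hasDerivAt_g (by linarith [hz.1]) (by linarith [hz.2])).differentiableAt.differentiableWithinAt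
      · intro z hz
        rw [interior_Icc] at hz
        rw [(hasDerivAt_g (by linarith [hz.1]) (by linarith [hz.2])).deriv]
        have := X_pos hz.1 (by linarith [hz.2])
        positivity
    exact hmono ⟨hs.le, hst⟩ ⟨by linarith, le_rfl⟩ hst
  linarith

theorem g_mono {s t : ℝ} (hs : 0 ≤ s) (hst : s ≤ t) (ht : t ≤ 1) : g s ≤ g t := by
  have hmono : MonotoneOn g (Icc 0 1) := by
    apply monotoneOn_of_deriv_nonneg (convex_Icc 0 1) continuous_g.continuousOn
    · intro z hz
      rw [interior_Icc] at hz
      exact (hasDerivAt_g (by linarith [hz.1]) (by linarith [hz.2])).differentiableAt.differentiableWithinAt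
    · intro z hz
      rw [interior_Icc] at hz
      rw [(hasDerivAt_g (by linarith [hz.1]) (by linarith [hz.2])).deriv]
      have := X_pos hz.1 (by linarith [hz.2])
      positivity
  exact hmono ⟨hs, by linarith⟩ ⟨by linarith, ht⟩ hst

theorem g_strictMono {s t : ℝ} (hs : 0 ≤ s) (hst : s < t) (ht : t ≤ 1) : g s < g t := by
  have hmono : StrictMonoOn g (Icc 0 1) := by
    apply strictMonoOn_of_deriv_pos (convex_Icc 0 1) continuous_g.continuousOn
    · intro z hz
      rw [interior_Icc] at hz
      rw [(hasDerivAt_g (by linarith [hz.1]) (by linarith [hz.2])).deriv]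
      have := X_pos hz.1 (by linarith [hz.2])
      positivity
  exact hmono ⟨hs, by linarith⟩ ⟨by linarith, ht⟩ hst

/-- The slope `κ`: `X t / t`, with value `2` at `0`. -/
noncomputable def kap (t : ℝ) : ℝ := if t = 0 then 2 else X t / t

theorem kap_ge {t : ℝ} (h1 : 0 ≤ t) (h2 : t < 1) : 2 + 2 * t ^ 2 / 3 ≤ kap t := by
  unfold kap
  split_ifs with h
  · subst h; norm_num
  · have h3 : 0 < t := lt_of_le_of_ne h1 (Ne.symm h)
    rw [le_div_iff₀ h3]
    have := X_ge h1 h2
    nlinarith

theorem kap_pos {t : ℝ} (h1 : 0 ≤ t) (h2 : t < 1) : 0 < kap t := by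
  have := kap_ge h1 h2
  have : 0 ≤ 2 * t ^ 2 / 3 := by positivity
  linarith

theorem inv_kap {t : ℝ} (h1 : 0 < t) : 1 / kap t = t / X t := by
  unfold kap
  rw [if_neg h1.ne', one_div_div]

/-- The bound `Δ ≤ 3 (1/κ(s) - 1/κ(t))`. -/
theorem delta_le {s t : ℝ} (hs : 0 ≤ s) (hst : s ≤ t) (ht0 : 0 < t) (ht : t < 1) :
    g t - g s ≤ 3 * (1 / kap s - t / X t) := by
  rcases hs.eq_or_lt with rfl | hs'
  · -- limit
    have hk : 1 / kap 0 = 1 / 2 := by simp [kap]
    rw [hk, g_zero]
    have hb : ∀ e : ℝ, 0 < e → e ≤ t → g t - g e ≤ 3 * (1 / 2 - t / X t) := by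
      intro e he het
      have h1 := key_antitone he het ht
      have h2 : e / X e ≤ 1 / 2 := by
        have h3 := X_ge he.le (lt_of_le_of_lt het ht)
        have h4 := X_pos he (lt_of_le_of_lt het ht)
        rw [div_le_iff₀ h4]
        have : 0 ≤ 2 * e ^ 3 / 3 := by positivity
        linarith
      linarith
    have hlim : Filter.Tendsto (fun e : ℝ => g t - g e) (nhdsWithin 0 (Ioi 0)) (nhds (g t - g 0)) :=
      ((continuous_const.sub continuous_g).tendsto 0).mono_left nhdsWithin_le_nhds
    rw [g_zero] at hlim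
    apply le_of_tendsto hlim
    have : ∀ᶠ e in nhdsWithin (0:ℝ) (Ioi 0), e ∈ Ioc 0 t := by
      apply Ioc_mem_nhdsGT ht0
    filter_upwards [this] with e he
    exact hb e he.1 he.2
  · rw [inv_kap hs']
    exact key_antitone hs' hst ht

/-- The core inequality. -/
theorem core {s t : ℝ} (hs : 0 ≤ s) (hs1 : s < 1) (hst : s ≤ t) (ht : t ≤ 1) :
    kap s * (t ^ 2 - s ^ 2) / 4 + kap s / 6 * (g t - g s) ^ 2 ≤ g t - g s := by
  have hk := kap_pos hs hs1
  have hmono : MonotoneOn (fun t : ℝ => (g t - g s) - (kap s * (t ^ 2 - s ^ 2) / 4 +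
      kap s / 6 * (g t - g s) ^ 2)) (Icc s 1) := by
    have hd : ∀ z ∈ Ioo s 1, HasDerivAt (fun t : ℝ => (g t - g s) - (kap s * (t ^ 2 - s ^ 2) / 4 +
        kap s / 6 * (g t - g s) ^ 2))
        (X z / 2 - (kap s * z / 2 + kap s / 3 * (g z - g s) * (X z / 2))) z := by
      intro z hz
      have hg := (hasDerivAt_g (t := z) (by linarith [hz.1]) hz.2).sub_const (g s)
      have h1 : HasDerivAt (fun t : ℝ => kap s * (t ^ 2 - s ^ 2) / 4) (kap s * z / 2) z := by
        have := ((((hasDerivAt_pow 2 z).sub_const (s ^ 2)).const_mul (kap s)).div_const 4)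
        exact this.congr_deriv (by norm_num; ring)
      have h2 : HasDerivAt (fun t : ℝ => kap s / 6 * (g t - g s) ^ 2)
          (kap s / 3 * (g z - g s) * (X z / 2)) z := by
        have := (hg.pow 2).const_mul (kap s / 6)
        exact this.congr_deriv (by norm_num; ring)
      exact hg.sub (h1.add h2)
    apply monotoneOn_of_deriv_nonneg (convex_Icc s 1)
    · have := continuous_g
      fun_prop
    · intro z hz
      rw [interior_Icc] at hz
      exact (hd z hz).differentiableAt.differentiableWithinAt
    · intro z hz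
      rw [interior_Icc] at hz
      rw [(hd z hz).deriv]
      have hz0 : 0 < z := by linarith [hz.1]
      have hX := X_pos hz0 hz.2
      have hD := delta_le hs hz.1.le hz0 hz.2
      -- kap s * (Δ/3) ≤ 1 - kap s * z / X z
      have h3 : kap s * (g z - g s) / 3 ≤ 1 - kap s * (z / X z) := by
        have : kap s * (g z - g s) ≤ kap s * (3 * (1 / kap s - z / X z)) :=
          mul_le_mul_of_nonneg_left hD hk.le
        have e : kap s * (3 * (1 / kap s - z / X z)) = 3 * (1 - kap s * (z / X z)) := by
          field_simp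
        rw [e] at this
        linarith
      have h4 : X z * (kap s * (g z - g s) / 3) ≤ X z * (1 - kap s * (z / X z)) :=
        mul_le_mul_of_nonneg_left h3 hX.le
      have e2 : X z * (1 - kap s * (z / X z)) = X z - kap s * z := by
        field_simp
      rw [e2] at h4
      nlinarith
  have := hmono (show s ∈ Icc s 1 from ⟨le_rfl, hs1.le⟩) (show t ∈ Icc s 1 from ⟨hst, ht⟩) hst
  simp only [sub_self] at this
  norm_num at this
  linarith

/-- The tangent inequality: `g` lies above its tangent, as a function of `t²`, at `s ∈ [0,1)`. -/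
theorem tangent {s t : ℝ} (hs : 0 ≤ s) (hs1 : s < 1) (ht0 : 0 ≤ t) (ht : t ≤ 1) :
    g s + kap s * (t ^ 2 - s ^ 2) / 4 ≤ g t := by
  rcases le_total s t with hst | hts
  · have h := core hs hs1 hst ht
    have hk := kap_pos hs hs1
    have : 0 ≤ kap s / 6 * (g t - g s) ^ 2 := by positivity
    linarith
  · -- t ≤ s
    rcases hs.eq_or_lt with rfl | hs'
    · have : t = 0 := le_antisymm hts ht0
      subst this
      simp
    have hmono : AntitoneOn (fun z : ℝ => g z - kap s * z ^ 2 / 4) (Icc 0 s) := by
      have hd : ∀ z ∈ Ioo 0 s, HasDerivAt (fun z : ℝ => g z - kap s * z ^ 2 / 4)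
          (X z / 2 - kap s * z / 2) z := by
        intro z hz
        have hg := (hasDerivAt_g (t := z) (by linarith [hz.1]) (by linarith [hz.2]))
        have h1 : HasDerivAt (fun t : ℝ => kap s * t ^ 2 / 4) (kap s * z / 2) z := by
          have := ((((hasDerivAt_pow 2 z)).const_mul (kap s)).div_const 4)
          exact this.congr_deriv (by norm_num; ring)
        exact hg.sub h1
      apply antitoneOn_of_deriv_nonpos (convex_Icc 0 s)
      · have := continuous_g
        fun_prop
      · intro z hz
        rw [interior_Icc] at hz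
        exact (hd z hz).differentiableAt.differentiableWithinAt
      · intro z hz
        rw [interior_Icc] at hz
        rw [(hd z hz).deriv]
        have hX := X_pos hz.1 (by linarith [hz.2])
        have hXs := X_pos hs' hs1
        have hr := ratio_antitone hz.1 hz.2.le hs1
        have : kap s * (s / X s) = 1 := by
          rw [← inv_kap hs']
          have := kap_pos hs hs1
          field_simp
        have hk := kap_pos hs hs1
        have h5 : 1 ≤ kap s * (z / X z) := by
          rw [← this]
          exact mul_le_mul_of_nonneg_left hr hk.le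
        have h6 : X z ≤ kap s * z := by
          have := mul_le_mul_of_nonneg_left h5 hX.le
          have e2 : X z * (kap s * (z / X z)) = kap s * z := by field_simp
          rw [e2] at this
          linarith
        linarith
    have := hmono (show t ∈ Icc 0 s from ⟨ht0, hts⟩) (show s ∈ Icc 0 s from ⟨hs, le_rfl⟩) hts
    simp only at this
    linarith

end Pool.Agent.W_MP_bbc525_pr
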