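import Mathlib

/-!
# Graphons, homomorphism densities and the upper tail variational problem
-/

namespace Pool.Agent.W_MP_bbc525_pr

open MeasureTheory

/-- A graphon: a symmetric measurable function `[0,1]² → [0,1]`. -/
structure Graphon where
  /-- the underlying function -/
  W : unitInterval → unitInterval → ℝ
  measurable : Measurable (Function.uncurry W)
  symm : ∀ x y, W x y = W y x
  nonneg : ∀ x y, 0 ≤ W x y
  le_one : ∀ x y, W x y ≤ 1

/-- The value `W(x_i, x_j)` on the edge `e = ij`. -/
noncomputable def Graphon.edge (W : Graphon) {V : Type*} (x : V → unitInterval) (e : Sym2 V) : ℝ :=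
  Sym2.lift ⟨fun i j => W.W (x i) (x j), fun i j => W.symm (x i) (x j)⟩ e

/-- The homomorphism density `t(H, W) = ∫ ∏_{ij ∈ E(H)} W(x_i, x_j) ∏ dx_i`. -/
noncomputable def homDensity {V : Type*} [Fintype V] [DecidableEq V] (H : SimpleGraph V)
    [DecidableRel H.Adj] (W : Graphon) : ℝ :=
  ∫ x : V → unitInterval, ∏ e ∈ H.edgeFinset, W.edge x e

/-- `I_p(x) = x log (x/p) + (1 - x) log ((1 - x)/(1 - p))`. -/
noncomputable def relEnt (p x : ℝ) : ℝ :=
  x * Real.log (x / p) + (1 - x) * Real.log ((1 - x) / (1 - p))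

/-- `E[I_p(W)] = ∫∫ I_p(W(x,y)) dx dy`. -/
noncomputable def cost (p : ℝ) (W : Graphon) : ℝ :=
  ∫ z : unitInterval × unitInterval, relEnt p (W.W z.1 z.2)

/-- The value `UT_p(H, q) = min {E[I_p(W)] : t(H, W) ≥ q ^ e(H)}` of the upper tail variational
problem (as an infimum). -/
noncomputable def UT {V : Type*} [Fintype V] [DecidableEq V] (H : SimpleGraph V)
    [DecidableRel H.Adj] (p q : ℝ) : ℝ :=
  sInf {c : ℝ | ∃ W : Graphon, q ^ H.edgeFinset.card ≤ homDensity H W ∧ cost p W = c}

/-- Replica symmetry at `(p, q)`: the constant graphon `q` attains the minimum. -/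
def ReplicaSymmetric {V : Type*} [Fintype V] [DecidableEq V] (H : SimpleGraph V)
    [DecidableRel H.Adj] (p q : ℝ) : Prop :=
  UT H p q = relEnt p q

/-- The constant graphon `q` is the unique minimizer (up to null sets). -/
def UniqueMinimizer {V : Type*} [Fintype V] [DecidableEq V] (H : SimpleGraph V)
    [DecidableRel H.Adj] (p q : ℝ) : Prop :=
  ∀ W : Graphon, q ^ H.edgeFinset.card ≤ homDensity H W → cost p W ≤ relEnt p q →
    ∀ᵐ z : unitInterval × unitInterval, W.W z.1 z.2 = q

end Pool.Agent.W_MP_bbc525_pr
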