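import Pool.Agent.W_MP_bbc525_pr.Reg
import Pool.Agent.W_MP_bbc525_pr.Closed

/-!
# A sufficient condition for upper tail replica symmetry, for every graph
-/

namespace Pool.Agent.W_MP_bbc525_pr.EdgeMaxDegreeSufficient

open Pool.Agent.W_MP_bbc525_pr

/-- **Main theorem.** For every finite simple graph `H` with at least one edge and
`0 < p ≤ q < 1`, with `m(e)` the larger degree of the two endpoints of the edge `e`: if
`I_p(r) - I_p(q) ≥ (q I_p'(q) / e(H)) ∑_e ((r/q)^{m(e)} - 1)/m(e)` for all `r ∈ [0, 1]`,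
then the constant graphon `q` is a minimizer of the upper tail variational problem, and the unique
one if `m` is not constant. -/
theorem result {V : Type*} [Fintype V] [DecidableEq V] (H : SimpleGraph V) [DecidableRel H.Adj]
    (hedge : 0 < H.edgeFinset.card)
    {p q : ℝ} (hp : 0 < p) (hpq : p ≤ q) (hq : q < 1)
    (h : ∀ r : ℝ, 0 ≤ r → r ≤ 1 →
      (q * (Real.log (q / (1 - q)) - Real.log (p / (1 - p))) / H.edgeFinset.card) *
        ∑ e ∈ H.edgeFinset, ((r / q) ^ mdeg H e - 1) / (mdeg H e : ℝ) ≤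
          relEnt p r - relEnt p q) :
    ReplicaSymmetric H p q ∧
      ((∃ e ∈ H.edgeFinset, ∃ e' ∈ H.edgeFinset, mdeg H e ≠ mdeg H e') →
        UniqueMinimizer H p q) := by
  have hq0 : 0 < q := lt_of_lt_of_le hp hpq
  have hp1 : p < 1 := lt_of_le_of_lt hpq hq
  rw [logit_eq hq0 hq, logit_eq hp hp1] at h
  exact suff_general H hedge hp hpq hq h

end Pool.Agent.W_MP_bbc525_pr.EdgeMaxDegreeSufficient
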