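import Pool.Agent.W_MP_bbc525_pr.Reg
import Pool.Agent.W_MP_bbc525_pr.Closed

/-!
# The upper tail replica symmetry phase diagram of non-regular graphs with regular components
-/

namespace Pool.Agent.Results.MP_bbc525_pr.EqualDegreeEdges

open Pool.Agent.W_MP_bbc525_pr

/-- **Main theorem.** Let `H` be a finite simple graph with at least one edge in which every edge
joins two vertices of equal degree (that is, every connected component is regular; for example
`K₂ ⊔ K₃`), and let `0 < p ≤ q < 1`. Then the constant graphon `q` is a minimizer of the upper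
tail variational problem exactly when
`I_p(r) - I_p(q) ≥ (q I_p'(q) / (2 e(H))) ∑_v ((r/q)^{deg v} - 1)` for all `r ∈ [0, 1]`,
and if two edges have different degrees, it is then the unique minimizer. -/
theorem result {V : Type*} [Fintype V] [DecidableEq V] (H : SimpleGraph V) [DecidableRel H.Adj]
    (hreg : ∀ i j, H.Adj i j → H.degree i = H.degree j) (hedge : 0 < H.edgeFinset.card)
    {p q : ℝ} (hp : 0 < p) (hpq : p ≤ q) (hq : q < 1) :
    (ReplicaSymmetric H p q ↔ ∀ r : ℝ, 0 ≤ r → r ≤ 1 →
      (q * (Real.log (q / (1 - q)) - Real.log (p / (1 - p))) / (2 * H.edgeFinset.card)) *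
        ∑ v, ((r / q) ^ H.degree v - 1) ≤ relEnt p r - relEnt p q) ∧
    (ReplicaSymmetric H p q →
      (∃ i j, 0 < H.degree i ∧ 0 < H.degree j ∧ H.degree i ≠ H.degree j) →
        UniqueMinimizer H p q) := by
  have hq0 : 0 < q := lt_of_lt_of_le hp hpq
  have hp1 : p < 1 := lt_of_le_of_lt hpq hq
  rw [logit_eq hq0 hq, logit_eq hp hp1]
  have hconv : (∀ r : ℝ, 0 ≤ r → r ≤ 1 →
      (q * (logit q - logit p) / (2 * H.edgeFinset.card)) *
        ∑ v, ((r / q) ^ H.degree v - 1) ≤ relEnt p r - relEnt p q) →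
      ∀ r : ℝ, 0 ≤ r → r ≤ 1 →
      (q * (logit q - logit p) / H.edgeFinset.card) *
        ∑ e ∈ H.edgeFinset, ((r / q) ^ mdeg H e - 1) / (mdeg H e : ℝ) ≤
        relEnt p r - relEnt p q := by
    intro h r hr hr1
    rw [sum_mdeg_eq H hreg]
    have := h r hr hr1
    have e : (q * (logit q - logit p) / (H.edgeFinset.card : ℝ)) *
        (1 / 2 * ∑ v, ((r / q) ^ H.degree v - 1)) =
        (q * (logit q - logit p) / (2 * H.edgeFinset.card)) *
        ∑ v, ((r / q) ^ H.degree v - 1) := by
      rw [← mul_assoc, mul_one_div, div_div, mul_comm (H.edgeFinset.card : ℝ) 2]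
    rw [e]
    exact this
  refine ⟨⟨necessary H hedge hp hpq hq, fun h => (suff_general H hedge hp hpq hq (hconv h)).1⟩, ?_⟩
  rintro hRS ⟨i, j, hi, hj, hij⟩
  apply (suff_general H hedge hp hpq hq (hconv (necessary H hedge hp hpq hq hRS))).2
  obtain ⟨i', hi'⟩ := (H.degree_pos_iff_exists_adj i).1 hi
  obtain ⟨j', hj'⟩ := (H.degree_pos_iff_exists_adj j).1 hj
  refine ⟨s(i, i'), by simpa using hi', s(j, j'), by simpa using hj', ?_⟩
  rw [mdeg_mk, mdeg_mk, ← hreg i i' hi', ← hreg j j' hj', max_self, max_self]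
  exact hij

end Pool.Agent.Results.MP_bbc525_pr.EqualDegreeEdges
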