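import Pool.Agent.W_MP_bbc525_pr.Hub

/-!
# The phase diagram for graphs of maximum degree two
-/

namespace Pool.Agent.W_MP_bbc525_pr

open MeasureTheory Finset Filter Topology


section UTsec

variable {V : Type*} [Fintype V] [DecidableEq V] (H : SimpleGraph V) [DecidableRel H.Adj]

/-- The constant graphon. -/
noncomputable def constGraphon (q : ℝ) (h0 : 0 ≤ q) (h1 : q ≤ 1) : Graphon where
  W := fun _ _ => q
  measurable := measurable_const
  symm := fun _ _ => rfl
  nonneg := fun _ _ => h0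
  le_one := fun _ _ => h1

theorem homDensity_const {q : ℝ} (h0 : 0 ≤ q) (h1 : q ≤ 1) :
    homDensity H (constGraphon q h0 h1) = q ^ H.edgeFinset.card := by
  unfold homDensity
  have : (fun x : V → unitInterval => ∏ e ∈ H.edgeFinset, (constGraphon q h0 h1).edge x e) =
      fun _ => q ^ H.edgeFinset.card := by
    ext x
    rw [← Finset.prod_const]
    apply Finset.prod_congr rfl
    intro e
    induction e using Sym2.ind with
    | _ i j => intro _; rfl
  rw [this]
  simp

theorem cost_const {p q : ℝ} (h0 : 0 ≤ q) (h1 : q ≤ 1) :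
    cost p (constGraphon q h0 h1) = relEnt p q := by
  unfold cost
  simp [constGraphon]

theorem cost_nonneg {p : ℝ} (hp : 0 < p) (hp1 : p < 1) (W : Graphon) : 0 ≤ cost p W :=
  integral_nonneg fun _ => relEnt_nonneg hp hp1 (W.nonneg _ _) (W.le_one _ _)

theorem replicaSymmetric_iff {p q : ℝ} (hp : 0 < p) (hpq : p ≤ q) (hq1 : q < 1) :
    ReplicaSymmetric H p q ↔
      ∀ W : Graphon, q ^ H.edgeFinset.card ≤ homDensity H W → relEnt p q ≤ cost p W := by
  have hq : 0 < q := lt_of_lt_of_le hp hpq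
  have hp1 : p < 1 := lt_of_le_of_lt hpq hq1
  have hmem : relEnt p q ∈ {c : ℝ | ∃ W : Graphon, q ^ H.edgeFinset.card ≤ homDensity H W ∧
      cost p W = c} :=
    ⟨constGraphon q hq.le hq1.le, (homDensity_const H hq.le hq1.le).ge,
      cost_const hq.le hq1.le⟩
  have hbdd : BddBelow {c : ℝ | ∃ W : Graphon, q ^ H.edgeFinset.card ≤ homDensity H W ∧
      cost p W = c} := ⟨0, by rintro c ⟨W, _, rfl⟩; exact cost_nonneg hp hp1 W⟩
  constructor
  · intro h W hW
    rw [← h]
    exact csInf_le hbdd ⟨W, hW, rfl⟩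
  · intro h
    apply le_antisymm
    · exact csInf_le hbdd hmem
    · apply le_csInf ⟨_, hmem⟩
      rintro c ⟨W, hW, rfl⟩
      exact h W hW

end UTsec

theorem relEnt_shift {p q r : ℝ} (hp : 0 < p) (hp1 : p < 1) (hq : 0 < q) (hq1 : q < 1)
    (hr : 0 ≤ r) (hr1 : r ≤ 1) :
    relEnt p r - relEnt p q = relEnt q r + (logit q - logit p) * (r - q) := by
  rw [relEnt_eq hp hp1 hr hr1, relEnt_eq hp hp1 hq.le hq1.le, relEnt_eq hq hq1 hr hr1]
  have e2 : relEnt q q = 0 := by
    unfold relEnt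
    rw [div_self hq.ne', div_self (by linarith)]
    simp
  have e1 := relEnt_eq hq hq1 hq.le hq1.le
  rw [e2] at e1
  unfold logit
  linarith

theorem tendsto_kap : Tendsto kap (𝓝[>] 0) (𝓝 2) := by
  have h := hasDerivAt_X (t := 0) (by norm_num) (by norm_num)
  have h1 := (hasDerivAt_iff_tendsto_slope.1 h)
  have h2 : 𝓝[>] (0:ℝ) ≤ 𝓝[≠] 0 := nhdsWithin_mono _ fun x hx => ne_of_gt hx
  have h3 := h1.mono_left h2
  have e : (2:ℝ) / (1 - 0 ^ 2) = 2 := by norm_num
  rw [e] at h3
  apply h3.congr'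
  filter_upwards [self_mem_nhdsWithin] with t ht
  have : (0:ℝ) < t := ht
  rw [slope_def_field, X_zero, sub_zero, sub_zero, kap, if_neg this.ne']

/-- If `C > κ(q)` then `D(r ‖ q) < C (r - q)²` for some `r`. -/
theorem exists_lt {q C : ℝ} (hq : 0 < q) (hq1 : q < 1) (hC : kq q < C) :
    ∃ r : ℝ, 0 ≤ r ∧ r ≤ 1 ∧ relEnt q r < C * (r - q) ^ 2 := by
  have h1q : 0 < 1 - q := by linarith
  by_cases hh : q = 1 / 2
  · subst hh
    have hk : kq (1 / 2) = 2 := by norm_num [kq, kap]
    rw [hk] at hC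
    have ev := tendsto_kap.eventually (gt_mem_nhds hC)
    have ev2 : ∀ᶠ t in 𝓝[>] (0:ℝ), t ∈ Set.Ioo (0:ℝ) 1 := Ioo_mem_nhdsGT one_pos
    obtain ⟨t, h1, h2⟩ := (ev.and ev2).exists
    refine ⟨(1 + t) / 2, by linarith [h2.1], by linarith [h2.2], ?_⟩
    rw [relEnt_eq (by norm_num) (by norm_num) (by linarith [h2.1]) (by linarith [h2.2])]
    have ht := tangent h2.1.le h2.2 le_rfl zero_le_one
    rw [g_zero] at ht
    have e1 : 2 * ((1 + t) / 2) - 1 = t := by ring
    have e2 : Real.log (1 / 2) = - Real.log 2 := by rw [one_div, Real.log_inv]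
    have e3 : (1 - 1 / 2 : ℝ) = 1 / 2 := by norm_num
    rw [e1, e3, e2]
    have : g t < C * t ^ 2 / 4 := by
      have ht2 : 0 < t ^ 2 := by have := h2.1; positivity
      nlinarith
    nlinarith
  · refine ⟨1 - q, h1q.le, by linarith, ?_⟩
    have e1 : relEnt q (1 - q) = kq q * (1 - 2 * q) * (1 - 2 * q) := by
      rw [kq_mul hq hq1]
      unfold relEnt logit
      rw [show 1 - (1 - q) = q by ring, Real.log_div h1q.ne' hq.ne', Real.log_div hq.ne' h1q.ne']
      ring
    rw [e1]
    have h2 : 0 < (1 - 2 * q) ^ 2 := by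
      have : (1 - 2 * q) ≠ 0 := fun h => hh (by linarith)
      positivity
    have e2 : (1 - q - q) = 1 - 2 * q := by ring
    rw [e2]
    nlinarith

section Main

variable {V : Type*} [Fintype V] [DecidableEq V] (H : SimpleGraph V) [DecidableRel H.Adj]

theorem sum_deg_two (hH : ∀ v, H.degree v ≤ 2) (x : ℝ) :
    ∑ v, (x ^ H.degree v - 1) = (nDeg H 2 : ℝ) * (x ^ 2 - 1) + (nDeg H 1 : ℝ) * (x - 1) := by
  have : ∀ v, x ^ H.degree v - 1 = (if H.degree v = 2 then x ^ 2 - 1 else 0) +
      (if H.degree v = 1 then x - 1 else 0) := by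
    intro v
    have := hH v
    interval_cases H.degree v <;> simp
  rw [Finset.sum_congr rfl fun v _ => this v, Finset.sum_add_distrib, ← Finset.sum_filter,
    ← Finset.sum_filter, Finset.sum_const, Finset.sum_const, nsmul_eq_mul, nsmul_eq_mul]
  simp only [nDeg]

theorem diagram_two (hH : ∀ v, H.degree v ≤ 2) (hE : 0 < H.edgeFinset.card) {p q : ℝ}
    (hp : 0 < p) (hpq : p ≤ q) (hq1 : q < 1) :
    (ReplicaSymmetric H p q ↔
      (nDeg H 2 : ℝ) * (logit q - logit p) ≤ 2 * H.edgeFinset.card * q * kq q) ∧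
    (ReplicaSymmetric H p q → UniqueMinimizer H p q) := by
  have hq : 0 < q := lt_of_lt_of_le hp hpq
  have hp1 : p < 1 := lt_of_le_of_lt hpq hq1
  have hiff : ReplicaSymmetric H p q ↔
      (nDeg H 2 : ℝ) * (logit q - logit p) ≤ 2 * H.edgeFinset.card * q * kq q := by
    rw [replicaSymmetric_iff H hp hpq hq1]
    constructor
    · intro h
      by_contra hcon
      push Not at hcon
      have hE' : (0:ℝ) < H.edgeFinset.card := by exact_mod_cast hE
      have hC : kq q < (nDeg H 2 : ℝ) * (logit q - logit p) / (2 * H.edgeFinset.card * q) := by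
        rw [lt_div_iff₀ (by positivity)]
        linarith
      obtain ⟨r, hr, hr1, hlt⟩ := exists_lt hq hq1 hC
      obtain ⟨W, hW, hW2⟩ := hub_breaks H hE hp hpq hq1 hr hr1 (by
        rw [relEnt_shift hp hp1 hq hq1 hr hr1, sum_deg_two H hH]
        have hcard := card_edges H hH
        have e1 : (nDeg H 2 : ℝ) * ((r / q) ^ 2 - 1) + (nDeg H 1 : ℝ) * (r / q - 1) =
            (nDeg H 2 : ℝ) * (r / q - 1) ^ 2 + 2 * H.edgeFinset.card * (r / q - 1) := by
          rw [hcard]; ring
        rw [e1]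
        have e2 : q * (logit q - logit p) / (2 * (H.edgeFinset.card : ℝ)) *
            ((nDeg H 2 : ℝ) * (r / q - 1) ^ 2 + 2 * H.edgeFinset.card * (r / q - 1)) =
            (nDeg H 2 : ℝ) * (logit q - logit p) / (2 * H.edgeFinset.card * q) * (r - q) ^ 2 +
              (logit q - logit p) * (r - q) := by
          field_simp
        rw [e2]
        linarith)
      exact absurd (h W hW) (not_le.2 hW2)
    · intro h W hW
      exact (suff_two H hH hE hp hpq hq1 h W hW).1
  refine ⟨hiff, ?_⟩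
  intro h W hW hc
  exact (suff_two H hH hE hp hpq hq1 (hiff.1 h) W hW).2 hc

end Main

end Pool.Agent.W_MP_bbc525_pr
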