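import Mathlib

/-!
# A Hölder-type inequality for products of functions of few variables (Finner's inequality)
-/

namespace Pool.Agent.W_MP_bbc525_pr

open MeasureTheory Finset ENNReal

/-- Hölder's inequality for finitely many functions on a probability space, with exponents of
sum at most one. -/
theorem holder_le_one {α ι : Type*} [MeasurableSpace α] {μ : Measure α} [IsProbabilityMeasure μ]
    (s : Finset ι) {f : ι → α → ℝ≥0∞} (hf : ∀ i ∈ s, AEMeasurable (f i) μ)
    {p : ι → ℝ} (hp : ∑ i ∈ s, p i ≤ 1) (h2p : ∀ i ∈ s, 0 ≤ p i) :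
    ∫⁻ a, ∏ i ∈ s, f i a ^ p i ∂μ ≤ ∏ i ∈ s, (∫⁻ a, f i a ∂μ) ^ p i := by
  classical
  let F : Option ι → α → ℝ≥0∞ := fun o a => o.elim 1 (fun i => f i a)
  let P : Option ι → ℝ := fun o => o.elim (1 - ∑ i ∈ s, p i) p
  have h := ENNReal.lintegral_prod_norm_pow_le (μ := μ) (insertNone s) (f := F) (p := P)
    (by
      intro i hi
      cases i with
      | none => exact aemeasurable_const
      | some j => exact hf j (by simpa using hi))
    (by simp [P, Finset.sum_insertNone])
    (by
      intro i hi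
      cases i with
      | none => simpa [P] using hp
      | some j => exact h2p j (by simpa using hi))
  simpa [F, P, Finset.prod_insertNone] using h

variable {δ : Type*} {X : δ → Type*} [∀ i, MeasurableSpace (X i)] {μ : ∀ i, Measure (X i)}
  [DecidableEq δ] [∀ i, IsProbabilityMeasure (μ i)]

/-- `f` does not depend on the coordinate `v`. -/
def NoDep (f : (∀ i, X i) → ℝ≥0∞) (v : δ) : Prop :=
  ∀ x y, f (Function.update x v y) = f x

theorem lmarginal_noDep {f : (∀ i, X i) → ℝ≥0∞} (hf : Measurable f) {v : δ} (h : NoDep f v)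
    (s : Finset δ) : NoDep (∫⋯∫⁻_s, f ∂μ) v := by
  intro x y
  by_cases hv : v ∈ s
  · exact lmarginal_update_of_mem μ hv f x y
  · rw [lmarginal_update_of_notMem hf hv]
    have : f ∘ (fun z => Function.update z v y) = f := funext fun z => h z y
    rw [this]

theorem lmarginal_eq_self {f : (∀ i, X i) → ℝ≥0∞} (hf : Measurable f) (s : Finset δ)
    (h : ∀ v ∈ s, NoDep f v) : ∫⋯∫⁻_s, f ∂μ = f := by
  induction s using Finset.induction_on with
  | empty => simp
  | insert v s hv ih =>
    rw [lmarginal_insert' _ hf hv]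
    have : (fun x ↦ ∫⁻ xᵢ, f (Function.update x v xᵢ) ∂μ v) = f := by
      ext x
      have h1 : ∀ y, f (Function.update x v y) = f x := h v (mem_insert_self v s) x
      simp [h1]
    rw [this]
    exact ih fun w hw => h w (mem_insert_of_mem hw)

/-- Finner's inequality, in marginal form. -/
theorem finner {ι : Type*} (I : Finset ι) {f : ι → (∀ i, X i) → ℝ≥0∞}
    (hf : ∀ i, Measurable (f i)) (D : ι → δ → Prop) [∀ i v, Decidable (D i v)]
    (hD : ∀ i v, ¬ D i v → NoDep (f i) v) (p : ι → ℝ) (hp : ∀ i, 0 ≤ p i)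
    (s : Finset δ) (hs : ∀ v ∈ s, ∑ i ∈ I with D i v, p i ≤ 1) :
    ∫⋯∫⁻_s, (fun x => ∏ i ∈ I, f i x ^ p i) ∂μ ≤
      fun x => ∏ i ∈ I, (∫⋯∫⁻_s, f i ∂μ) x ^ p i := by
  induction s using Finset.induction_on with
  | empty => simp
  | insert v s hv ih =>
    have ih' := ih fun w hw => hs w (mem_insert_of_mem hw)
    have hmeas : Measurable (fun x => ∏ i ∈ I, f i x ^ p i) :=
      Finset.measurable_prod _ fun i _ => (hf i).pow_const _
    intro x
    rw [lmarginal_insert _ hmeas hv]
    calc ∫⁻ y, (∫⋯∫⁻_s, (fun x => ∏ i ∈ I, f i x ^ p i) ∂μ) (Function.update x v y) ∂μ v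
        ≤ ∫⁻ y, ∏ i ∈ I, (∫⋯∫⁻_s, f i ∂μ) (Function.update x v y) ^ p i ∂μ v :=
          lintegral_mono fun y => ih' _
      _ = ∫⁻ y, (∏ i ∈ I with ¬ D i v, (∫⋯∫⁻_s, f i ∂μ) x ^ p i) *
            ∏ i ∈ I with D i v, (∫⋯∫⁻_s, f i ∂μ) (Function.update x v y) ^ p i ∂μ v := by
          apply lintegral_congr
          intro y
          rw [mul_comm, ← Finset.prod_filter_mul_prod_filter_not I (fun i => D i v)]
          congr 1
          apply Finset.prod_congr rfl
          intro i hi
          rw [mem_filter] at hi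
          rw [lmarginal_noDep (hf i) (hD i v hi.2) s x y]
      _ = (∏ i ∈ I with ¬ D i v, (∫⋯∫⁻_s, f i ∂μ) x ^ p i) *
            ∫⁻ y, ∏ i ∈ I with D i v, (∫⋯∫⁻_s, f i ∂μ) (Function.update x v y) ^ p i ∂μ v := by
          rw [lintegral_const_mul]
          apply Finset.measurable_prod _ fun i _ => ?_
          exact (((hf i).lmarginal μ).comp (measurable_update x)).pow_const _
      _ ≤ (∏ i ∈ I with ¬ D i v, (∫⋯∫⁻_s, f i ∂μ) x ^ p i) *
            ∏ i ∈ I with D i v, (∫⁻ y, (∫⋯∫⁻_s, f i ∂μ) (Function.update x v y) ∂μ v) ^ p i := by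
          gcongr
          apply holder_le_one _ _ (hs v (mem_insert_self v s)) (fun i _ => hp i)
          intro i _
          exact (((hf i).lmarginal μ).comp (measurable_update x)).aemeasurable
      _ = ∏ i ∈ I, (∫⋯∫⁻_insert v s, f i ∂μ) x ^ p i := by
          rw [mul_comm, ← Finset.prod_filter_mul_prod_filter_not I (fun i => D i v)]
          congr 1
          · apply Finset.prod_congr rfl
            intro i _
            rw [lmarginal_insert _ (hf i) hv]
          · apply Finset.prod_congr rfl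
            intro i hi
            rw [mem_filter] at hi
            rw [lmarginal_insert _ (hf i) hv]
            have h1 : ∀ y, (∫⋯∫⁻_s, f i ∂μ) (Function.update x v y) = (∫⋯∫⁻_s, f i ∂μ) x :=
              fun y => lmarginal_noDep (hf i) (hD i v hi.2) s x y
            simp [h1]

end Pool.Agent.W_MP_bbc525_pr
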