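import Pool.Agent.W_MP_bbc525_pr.Defs
import Pool.Agent.W_MP_bbc525_pr.Finner

/-!
# Upper bounds for homomorphism densities
-/

namespace Pool.Agent.W_MP_bbc525_pr

open MeasureTheory Finset ENNReal


section Marg

variable {V : Type*} [DecidableEq V]

theorem marg_one {h : unitInterval → ℝ≥0∞} (hh : Measurable h) {u : V} {s : Finset V} (hu : u ∈ s)
    (x : V → unitInterval) : (∫⋯∫⁻_s, (fun x : V → unitInterval => h (x u)) ∂(fun _ => volume)) x = ∫⁻ a, h a := by
  have hm : Measurable (fun x : V → unitInterval => h (x u)) := hh.comp (measurable_pi_apply u)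
  rw [lmarginal_erase _ hm hu]
  apply lintegral_congr
  intro a
  rw [lmarginal_eq_self hm]
  · simp
  · intro w hw x y
    have : w ≠ u := (mem_erase.1 hw).1
    simp [Function.update_of_ne this.symm]

theorem marg_part {h : unitInterval → unitInterval → ℝ≥0∞} (hh : Measurable (Function.uncurry h)) {u v : V}
    {s : Finset V} (hu : u ∉ s) (hv : v ∈ s) (x : V → unitInterval) :
    (∫⋯∫⁻_s, (fun x : V → unitInterval => h (x u) (x v)) ∂(fun _ => volume)) x = ∫⁻ b, h (x u) b := by
  have huv : u ≠ v := fun h => hu (h ▸ hv)
  have hpair : Measurable (fun x : V → unitInterval => (x u, x v)) :=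
    (measurable_pi_apply u).prodMk (measurable_pi_apply v)
  have hm : Measurable (fun x : V → unitInterval => h (x u) (x v)) := hh.comp hpair
  rw [lmarginal_erase _ hm hv]
  apply lintegral_congr
  intro a
  rw [lmarginal_eq_self hm]
  · simp [Function.update_of_ne huv]
  · intro w hw x y
    have h1 : w ≠ v := (mem_erase.1 hw).1
    have h2 : w ≠ u := fun h => hu (h ▸ (mem_erase.1 hw).2)
    simp [Function.update_of_ne h1.symm, Function.update_of_ne h2.symm]

theorem marg_two {h : unitInterval → unitInterval → ℝ≥0∞} (hh : Measurable (Function.uncurry h)) {u v : V}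
    {s : Finset V} (huv : u ≠ v) (hu : u ∈ s) (hv : v ∈ s) (x : V → unitInterval) :
    (∫⋯∫⁻_s, (fun x : V → unitInterval => h (x u) (x v)) ∂(fun _ => volume)) x = ∫⁻ a, ∫⁻ b, h a b := by
  have hpair : Measurable (fun x : V → unitInterval => (x u, x v)) :=
    (measurable_pi_apply u).prodMk (measurable_pi_apply v)
  have hm : Measurable (fun x : V → unitInterval => h (x u) (x v)) := hh.comp hpair
  rw [lmarginal_erase _ hm hu]
  apply lintegral_congr
  intro a
  rw [marg_part hh (notMem_erase u s) (mem_erase.2 ⟨huv.symm, hv⟩)]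
  simp

end Marg

namespace Graphon

variable (W : Graphon)

/-- The edge density. -/
noncomputable def mean : ℝ := ∫ z : unitInterval × unitInterval, W.W z.1 z.2

/-- The moments `∫∫ W ^ k`. -/
noncomputable def mom (k : ℕ) : ℝ := ∫ z : unitInterval × unitInterval, W.W z.1 z.2 ^ k

/-- The degree function. -/
noncomputable def dg (x : unitInterval) : ℝ := ∫ y, W.W x y

/-- The 2-star density. -/
noncomputable def dg2 : ℝ := ∫ x, W.dg x ^ 2

theorem measurable_prod : Measurable (fun z : unitInterval × unitInterval => W.W z.1 z.2) := W.measurable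

theorem measurable_left (x : unitInterval) : Measurable (fun y : unitInterval => W.W x y) :=
  W.measurable.comp measurable_prodMk_left

theorem integrable_of_bdd {α : Type*} [MeasurableSpace α] {μ : Measure α} [IsFiniteMeasure μ]
    {f : α → ℝ} (hf : Measurable f) {C : ℝ} (h : ∀ x, |f x| ≤ C) : Integrable f μ :=
  Integrable.of_bound hf.aestronglyMeasurable C (Filter.Eventually.of_forall h)

theorem abs_le (x y : unitInterval) : |W.W x y| ≤ 1 := by
  rw [abs_of_nonneg (W.nonneg x y)]; exact W.le_one x y

theorem integrable_W : Integrable (fun z : unitInterval × unitInterval => W.W z.1 z.2) :=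
  integrable_of_bdd W.measurable_prod (C := 1) fun _ => W.abs_le _ _

theorem integrable_pow (k : ℕ) : Integrable (fun z : unitInterval × unitInterval => W.W z.1 z.2 ^ k) :=
  integrable_of_bdd (W.measurable_prod.pow_const k) (C := 1) fun _ => by
    rw [abs_pow]
    exact pow_le_one₀ (abs_nonneg _) (W.abs_le _ _)

theorem integrable_left (x : unitInterval) : Integrable (fun y : unitInterval => W.W x y) :=
  integrable_of_bdd (W.measurable_left x) (C := 1) fun _ => W.abs_le _ _

theorem dg_nonneg (x : unitInterval) : 0 ≤ W.dg x := integral_nonneg fun y => W.nonneg x y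

theorem dg_le_one (x : unitInterval) : W.dg x ≤ 1 := by
  have : W.dg x ≤ ∫ _ : unitInterval, (1 : ℝ) :=
    integral_mono (W.integrable_left x) (integrable_const 1) fun y => W.le_one x y
  simpa using this

theorem measurable_dg : Measurable W.dg := by
  have := W.measurable.stronglyMeasurable.integral_prod_right (ν := (volume : Measure unitInterval))
  exact this.measurable

theorem mean_nonneg : 0 ≤ W.mean := integral_nonneg fun _ => W.nonneg _ _

theorem mom_nonneg (k : ℕ) : 0 ≤ W.mom k := integral_nonneg fun _ => pow_nonneg (W.nonneg _ _) _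

theorem dg2_nonneg : 0 ≤ W.dg2 := integral_nonneg fun _ => sq_nonneg _

theorem mom_one : W.mom 1 = W.mean := by simp [mom, mean]

theorem lint_dg (x : unitInterval) : ∫⁻ y, ENNReal.ofReal (W.W x y) = ENNReal.ofReal (W.dg x) := by
  rw [dg, ofReal_integral_eq_lintegral_ofReal (W.integrable_left x)
    (Filter.Eventually.of_forall fun y => W.nonneg x y)]

theorem lint_pow (k : ℕ) : ∫⁻ x, ∫⁻ y, ENNReal.ofReal (W.W x y) ^ k = ENNReal.ofReal (W.mom k) := by
  rw [mom, ofReal_integral_eq_lintegral_ofReal (W.integrable_pow k)
    (Filter.Eventually.of_forall fun y => pow_nonneg (W.nonneg _ _) _)]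
  rw [Measure.volume_eq_prod, lintegral_prod _ ((W.measurable_prod.pow_const k).ennreal_ofReal.aemeasurable)]
  simp_rw [ENNReal.ofReal_pow (W.nonneg _ _)]

theorem lint_mean : ∫⁻ x, ∫⁻ y, ENNReal.ofReal (W.W x y) = ENNReal.ofReal W.mean := by
  have := W.lint_pow 1
  simpa [mom_one] using this

theorem lint_dg2 : ∫⁻ x, (∫⁻ y, ENNReal.ofReal (W.W x y)) ^ 2 = ENNReal.ofReal W.dg2 := by
  rw [dg2, ofReal_integral_eq_lintegral_ofReal]
  · simp_rw [lint_dg, ENNReal.ofReal_pow (W.dg_nonneg _)]
  · exact integrable_of_bdd (W.measurable_dg.pow_const 2) (C := 1) fun x => by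
      rw [abs_pow, abs_of_nonneg (W.dg_nonneg x)]
      exact pow_le_one₀ (W.dg_nonneg x) (W.dg_le_one x)
  · exact Filter.Eventually.of_forall fun x => sq_nonneg _

variable {V : Type*}

@[simp] theorem edge_mk (x : V → unitInterval) (i j : V) : W.edge x s(i, j) = W.W (x i) (x j) := rfl

theorem edge_nonneg (x : V → unitInterval) (e : Sym2 V) : 0 ≤ W.edge x e := by
  induction e using Sym2.ind with
  | _ i j => exact W.nonneg _ _

theorem edge_le_one (x : V → unitInterval) (e : Sym2 V) : W.edge x e ≤ 1 := by
  induction e using Sym2.ind with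
  | _ i j => exact W.le_one _ _

theorem measurable_edge (e : Sym2 V) : Measurable (fun x : V → unitInterval => W.edge x e) := by
  induction e using Sym2.ind with
  | _ i j =>
    have hpair : Measurable (fun x : V → unitInterval => (x i, x j)) :=
      (measurable_pi_apply i).prodMk (measurable_pi_apply j)
    exact W.measurable.comp hpair

theorem noDep_edge [DecidableEq V] (e : Sym2 V) (v : V) (h : v ∉ e) :
    NoDep (fun x : V → unitInterval => ENNReal.ofReal (W.edge x e)) v := by
  induction e using Sym2.ind with
  | _ i j =>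
    intro x y
    simp only [Sym2.mem_iff, not_or] at h
    simp [Function.update_of_ne (Ne.symm h.1), Function.update_of_ne (Ne.symm h.2)]

end Graphon

section Main

variable {V : Type*} [Fintype V] [DecidableEq V] (H : SimpleGraph V) [DecidableRel H.Adj]
  (W : Graphon)

theorem homDensity_nonneg : 0 ≤ homDensity H W :=
  integral_nonneg fun x => Finset.prod_nonneg fun e _ => W.edge_nonneg x e

theorem ofReal_homDensity : ENNReal.ofReal (homDensity H W) =
    ∫⁻ x : V → unitInterval, ∏ e ∈ H.edgeFinset, ENNReal.ofReal (W.edge x e) := by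
  rw [homDensity, ofReal_integral_eq_lintegral_ofReal]
  · apply lintegral_congr
    intro x
    rw [ENNReal.ofReal_prod_of_nonneg fun e _ => W.edge_nonneg x e]
  · refine Graphon.integrable_of_bdd (Finset.measurable_prod _ fun e _ => W.measurable_edge e)
      (C := 1) fun x => ?_
    rw [abs_of_nonneg (Finset.prod_nonneg fun e _ => W.edge_nonneg x e)]
    exact Finset.prod_le_one (fun e _ => W.edge_nonneg x e) fun e _ => W.edge_le_one x e
  · exact Filter.Eventually.of_forall fun x => Finset.prod_nonneg fun e _ => W.edge_nonneg x e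

/-- The set of edges containing `v` has `deg v` elements. -/
theorem card_filter_edge (v : V) : (H.edgeFinset.filter fun e => v ∈ e).card = H.degree v := by
  rw [← H.card_incidenceFinset_eq_degree, H.incidenceFinset_eq_filter]

/-- The factor of an edge in the bound for graphs of maximum degree two. -/
noncomputable def fac2 (e : Sym2 V) : ℝ :=
  if ∀ v ∈ e, H.degree v ≠ 1 then Real.sqrt (W.mom 2)
  else if ∀ v ∈ e, H.degree v = 1 then W.mean else Real.sqrt W.dg2

theorem fac2_nonneg (e : Sym2 V) : 0 ≤ fac2 H W e := by
  unfold fac2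
  split_ifs
  · positivity
  · exact W.mean_nonneg
  · positivity

/-- The upper bound for graphs of maximum degree at most two. -/
theorem homDensity_le_fac2 (hH : ∀ v, H.degree v ≤ 2) :
    homDensity H W ≤ ∏ e ∈ H.edgeFinset, fac2 H W e := by
  classical
  have hnn : 0 ≤ ∏ e ∈ H.edgeFinset, fac2 H W e := Finset.prod_nonneg fun e _ => fac2_nonneg H W e
  rw [← ENNReal.ofReal_le_ofReal_iff hnn, ofReal_homDensity]
  let x0 : V → unitInterval := fun _ => 0
  let Lf : Finset V := univ.filter fun v => H.degree v = 1
  let s2 : Finset V := univ.filter fun v => ¬ H.degree v = 1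
  let f : Sym2 V → (V → unitInterval) → ℝ≥0∞ := fun e x => ENNReal.ofReal (W.edge x e)
  have hf : ∀ e, Measurable (f e) := fun e => (W.measurable_edge e).ennreal_ofReal
  let F : Sym2 V → (V → unitInterval) → ℝ≥0∞ := fun e => ∫⋯∫⁻_Lf, f e ∂(fun _ => volume)
  have hF : ∀ e, Measurable (F e) := fun e => (hf e).lmarginal _
  have hprod : Measurable (fun x => ∏ e ∈ H.edgeFinset, f e x) :=
    Finset.measurable_prod _ fun e _ => hf e
  have hun : (univ : Finset V) = s2 ∪ Lf := by
    rw [Finset.union_comm]
    exact (Finset.filter_union_filter_not_eq _ _).symm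
  have hdisj : Disjoint s2 Lf := (Finset.disjoint_filter_filter_not _ _ _).symm
  have step1 : ∫⋯∫⁻_Lf, (fun x => ∏ e ∈ H.edgeFinset, f e x) ∂(fun _ => volume) ≤
      fun x => ∏ e ∈ H.edgeFinset, F e x := by
    have h := finner (μ := fun _ : V => (volume : Measure unitInterval)) H.edgeFinset hf
      (fun e v => v ∈ e) (fun e v hv => W.noDep_edge e v hv) (fun _ => 1) (fun _ => zero_le_one)
      Lf (by
        intro v hv
        simp only [sum_const, nsmul_eq_mul, mul_one]
        rw [card_filter_edge, (mem_filter.1 hv).2]
        simp)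
    simpa using h
  have step2 : ∫⋯∫⁻_s2, (fun x => ∏ e ∈ H.edgeFinset, F e x) ∂(fun _ => volume) ≤
      fun x => ∏ e ∈ H.edgeFinset, (∫⋯∫⁻_s2, (fun x => F e x ^ (2 : ℕ)) ∂(fun _ => volume)) x ^ (1 / 2 : ℝ) := by
    have h := finner (μ := fun _ : V => (volume : Measure unitInterval)) H.edgeFinset
      (f := fun e x => F e x ^ (2 : ℕ)) (fun e => (hF e).pow_const 2)
      (fun e v => v ∈ e) (fun e v hv => by
        intro x y
        have := lmarginal_noDep (μ := fun _ : V => (volume : Measure unitInterval)) (hf e)
          (W.noDep_edge e v hv) Lf x y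
        simp only [F]
        rw [this]) (fun _ => 1 / 2) (fun _ => by norm_num)
      s2 (by
        intro v hv
        simp only [sum_const, nsmul_eq_mul]
        rw [card_filter_edge]
        have := hH v
        have h2 : (H.degree v : ℝ) ≤ 2 := by exact_mod_cast this
        linarith)
    have e1 : (fun x => ∏ e ∈ H.edgeFinset, F e x) =
        fun x => ∏ e ∈ H.edgeFinset, (F e x ^ (2 : ℕ)) ^ (1 / 2 : ℝ) := by
      ext x
      apply Finset.prod_congr rfl
      intro e _
      rw [← ENNReal.rpow_natCast, ← ENNReal.rpow_mul]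
      norm_num
    rw [e1]
    exact h
  -- evaluation of the factors
  have hfac : ∀ e ∈ H.edgeFinset,
      (∫⋯∫⁻_s2, (fun x => F e x ^ (2 : ℕ)) ∂(fun _ => volume)) x0 ^ (1 / 2 : ℝ) =
        ENNReal.ofReal (fac2 H W e) := by
    intro e
    induction e using Sym2.ind with
    | _ i j =>
      intro he
      have hadj : H.Adj i j := by simpa using he
      have hij : i ≠ j := hadj.ne
      have hWm : Measurable (Function.uncurry fun a b : unitInterval => ENNReal.ofReal (W.W a b)) :=
        W.measurable.ennreal_ofReal
      -- square root helper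
      have hsq : ∀ c : ℝ, 0 ≤ c → ENNReal.ofReal c ^ (1 / 2 : ℝ) = ENNReal.ofReal (Real.sqrt c) := by
        intro c hc
        rw [Real.sqrt_eq_rpow, ENNReal.ofReal_rpow_of_nonneg hc (by norm_num)]
      by_cases hi : H.degree i = 1
      · have hiL : i ∈ Lf := by simp [Lf, hi]
        by_cases hj : H.degree j = 1
        · -- both leaves
          have hjL : j ∈ Lf := by simp [Lf, hj]
          have hFe : F s(i, j) = fun _ => ENNReal.ofReal W.mean := by
            ext x
            simp only [F, f, Graphon.edge_mk]
            rw [marg_two (h := fun a b => ENNReal.ofReal (W.W a b)) hWm hij hiL hjL, W.lint_mean]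
          rw [hFe]
          have hc : (∫⋯∫⁻_s2, (fun _ : V → unitInterval => ENNReal.ofReal W.mean ^ (2 : ℕ))
              ∂(fun _ => volume)) = fun _ => ENNReal.ofReal W.mean ^ (2 : ℕ) := by
            apply lmarginal_eq_self measurable_const
            intro v _ x y
            rfl
          rw [hc]
          have hfe : fac2 H W s(i, j) = W.mean := by
            unfold fac2
            rw [if_neg, if_pos]
            · intro v hv
              rcases Sym2.mem_iff.1 hv with rfl | rfl
              · exact hi
              · exact hj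
            · push Not
              exact ⟨i, Sym2.mem_mk_left i j, hi⟩
          rw [hfe, ← ENNReal.rpow_natCast, ← ENNReal.rpow_mul]
          norm_num
        · -- i leaf, j not
          have hjs : j ∈ s2 := by simp [s2, hj]
          have hjL : j ∉ Lf := by simp [Lf, hj]
          have hFe : F s(i, j) = fun x => ∫⁻ b, ENNReal.ofReal (W.W (x j) b) := by
            ext x
            simp only [F, f, Graphon.edge_mk]
            have : (fun x : V → unitInterval => ENNReal.ofReal (W.W (x i) (x j))) =
                fun x : V → unitInterval => ENNReal.ofReal (W.W (x j) (x i)) := by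
              ext x
              rw [W.symm]
            rw [this]
            exact marg_part (h := fun a b => ENNReal.ofReal (W.W a b)) hWm hjL hiL x
          rw [hFe]
          have hm1 : Measurable (fun a : unitInterval => (∫⁻ b, ENNReal.ofReal (W.W a b)) ^ (2 : ℕ)) :=
            (Measurable.lintegral_prod_right' hWm).pow_const 2
          rw [marg_one (h := fun a : unitInterval => (∫⁻ b, ENNReal.ofReal (W.W a b)) ^ (2 : ℕ)) hm1 hjs,
            W.lint_dg2, hsq _ W.dg2_nonneg]
          have hfe : fac2 H W s(i, j) = Real.sqrt W.dg2 := by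
            unfold fac2
            rw [if_neg, if_neg]
            · push Not
              exact ⟨j, Sym2.mem_mk_right i j, hj⟩
            · push Not
              exact ⟨i, Sym2.mem_mk_left i j, hi⟩
          rw [hfe]
      · have hiL : i ∉ Lf := by simp [Lf, hi]
        have his : i ∈ s2 := by simp [s2, hi]
        by_cases hj : H.degree j = 1
        · have hjL : j ∈ Lf := by simp [Lf, hj]
          have hFe : F s(i, j) = fun x => ∫⁻ b, ENNReal.ofReal (W.W (x i) b) := by
            ext x
            simp only [F, f, Graphon.edge_mk]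
            exact marg_part (h := fun a b => ENNReal.ofReal (W.W a b)) hWm hiL hjL x
          rw [hFe]
          have hm1 : Measurable (fun a : unitInterval => (∫⁻ b, ENNReal.ofReal (W.W a b)) ^ (2 : ℕ)) :=
            (Measurable.lintegral_prod_right' hWm).pow_const 2
          rw [marg_one (h := fun a : unitInterval => (∫⁻ b, ENNReal.ofReal (W.W a b)) ^ (2 : ℕ)) hm1 his,
            W.lint_dg2, hsq _ W.dg2_nonneg]
          have hfe : fac2 H W s(i, j) = Real.sqrt W.dg2 := by
            unfold fac2
            rw [if_neg, if_neg]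
            · push Not
              exact ⟨i, Sym2.mem_mk_left i j, hi⟩
            · push Not
              exact ⟨j, Sym2.mem_mk_right i j, hj⟩
          rw [hfe]
        · -- no leaf
          have hjL : j ∉ Lf := by simp [Lf, hj]
          have hjs : j ∈ s2 := by simp [s2, hj]
          have hFe : F s(i, j) = f s(i, j) := by
            apply lmarginal_eq_self (hf _)
            intro v hv
            apply W.noDep_edge
            intro hv2
            rcases Sym2.mem_iff.1 hv2 with rfl | rfl
            · exact hiL hv
            · exact hjL hv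
          rw [hFe]
          simp only [f, Graphon.edge_mk]
          have hm2 : Measurable (Function.uncurry fun a b : unitInterval => ENNReal.ofReal (W.W a b) ^ (2 : ℕ)) :=
            hWm.pow_const 2
          rw [marg_two (h := fun a b => ENNReal.ofReal (W.W a b) ^ (2 : ℕ)) hm2 hij his hjs,
            W.lint_pow 2, hsq _ (W.mom_nonneg 2)]
          have hfe : fac2 H W s(i, j) = Real.sqrt (W.mom 2) := by
            unfold fac2
            rw [if_pos]
            intro v hv
            rcases Sym2.mem_iff.1 hv with rfl | rfl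
            · exact hi
            · exact hj
          rw [hfe]
  calc ∫⁻ x : V → unitInterval, ∏ e ∈ H.edgeFinset, f e x
      = (∫⋯∫⁻_univ, (fun x => ∏ e ∈ H.edgeFinset, f e x) ∂(fun _ => volume)) x0 := by
        rw [lmarginal_univ]; rfl
    _ = (∫⋯∫⁻_s2, ∫⋯∫⁻_Lf, (fun x => ∏ e ∈ H.edgeFinset, f e x) ∂(fun _ => volume)
          ∂(fun _ => volume)) x0 := by
        rw [hun, lmarginal_union _ _ hprod hdisj]
    _ ≤ (∫⋯∫⁻_s2, (fun x => ∏ e ∈ H.edgeFinset, F e x) ∂(fun _ => volume)) x0 :=
        lmarginal_mono step1 x0
    _ ≤ ∏ e ∈ H.edgeFinset, (∫⋯∫⁻_s2, (fun x => F e x ^ (2 : ℕ)) ∂(fun _ => volume)) x0 ^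
          (1 / 2 : ℝ) := step2 x0
    _ = ∏ e ∈ H.edgeFinset, ENNReal.ofReal (fac2 H W e) := Finset.prod_congr rfl hfac
    _ = ENNReal.ofReal (∏ e ∈ H.edgeFinset, fac2 H W e) := by
        rw [ENNReal.ofReal_prod_of_nonneg fun e _ => fac2_nonneg H W e]

end Main

end Pool.Agent.W_MP_bbc525_pr
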