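import Pool.Agent.W_MP_bbc525_pr.Suff

/-!
# The hub construction: a necessary condition for replica symmetry, for every graph
-/

namespace Pool.Agent.W_MP_bbc525_pr

open MeasureTheory Finset Filter Topology


/-- The hub graphon. -/
noncomputable def hub (ε r s : ℝ) (hr : 0 ≤ r) (hr1 : r ≤ 1) (hs : 0 ≤ s) (hs1 : s ≤ 1) :
    Graphon where
  W := fun x y => if (x : ℝ) < ε ∨ (y : ℝ) < ε then r else s
  measurable := by
    apply Measurable.ite _ measurable_const measurable_const
    have h1 : MeasurableSet {z : unitInterval × unitInterval | (z.1 : ℝ) < ε} :=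
      measurableSet_lt (measurable_subtype_coe.comp measurable_fst) measurable_const
    have h2 : MeasurableSet {z : unitInterval × unitInterval | (z.2 : ℝ) < ε} :=
      measurableSet_lt (measurable_subtype_coe.comp measurable_snd) measurable_const
    exact h1.union h2
  symm := fun x y => by simp only [or_comm]
  nonneg := fun x y => by split_ifs <;> assumption
  le_one := fun x y => by split_ifs <;> assumption

/-- The hub vertices. -/
def hubSet (ε : ℝ) : Set unitInterval := {x | (x : ℝ) < ε}

theorem measurableSet_hubSet (ε : ℝ) : MeasurableSet (hubSet ε) :=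
  measurableSet_lt measurable_subtype_coe measurable_const

theorem volume_hubSet {ε : ℝ} (h0 : 0 ≤ ε) (h1 : ε ≤ 1) :
    (volume : Measure unitInterval) (hubSet ε) = ENNReal.ofReal ε := by
  rw [unitInterval.volume_apply]
  have : (Subtype.val '' hubSet ε : Set ℝ) = Set.Ico 0 ε := by
    ext x
    simp only [hubSet, Set.mem_image, Set.mem_setOf_eq, Set.mem_Ico]
    constructor
    · rintro ⟨y, hy, rfl⟩
      exact ⟨y.2.1, hy⟩
    · rintro ⟨h2, h3⟩
      exact ⟨⟨x, h2, by linarith⟩, h3, rfl⟩
  rw [this, Real.volume_Ico, sub_zero]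

theorem real_hubSet {ε : ℝ} (h0 : 0 ≤ ε) (h1 : ε ≤ 1) :
    (volume : Measure unitInterval).real (hubSet ε) = ε := by
  rw [Measure.real, volume_hubSet h0 h1, ENNReal.toReal_ofReal h0]

theorem real_hubSet_compl {ε : ℝ} (h0 : 0 ≤ ε) (h1 : ε ≤ 1) :
    (volume : Measure unitInterval).real (hubSet ε)ᶜ = 1 - ε := by
  rw [probReal_compl_eq_one_sub (measurableSet_hubSet ε), real_hubSet h0 h1]

theorem volume_real_pi {V : Type*} [Fintype V] (s : V → Set unitInterval) :
    (volume : Measure (V → unitInterval)).real (Set.univ.pi s) = ∏ v, (volume : Measure unitInterval).real (s v) := by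
  simp only [Measure.real]
  rw [volume_pi, Measure.pi_pi, ENNReal.toReal_prod]

theorem hub_cost {ε r s p : ℝ} (hr : 0 ≤ r) (hr1 : r ≤ 1) (hs : 0 ≤ s) (hs1 : s ≤ 1)
    (h0 : 0 ≤ ε) (h1 : ε ≤ 1) :
    cost p (hub ε r s hr hr1 hs hs1) = relEnt p r + (1 - ε) ^ 2 * (relEnt p s - relEnt p r) := by
  unfold cost
  have hB : MeasurableSet ((hubSet ε)ᶜ ×ˢ (hubSet ε)ᶜ) :=
    (measurableSet_hubSet ε).compl.prod (measurableSet_hubSet ε).compl
  have e : (fun z : unitInterval × unitInterval => relEnt p ((hub ε r s hr hr1 hs hs1).W z.1 z.2)) =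
      fun z => relEnt p r + ((hubSet ε)ᶜ ×ˢ (hubSet ε)ᶜ).indicator
        (fun _ => relEnt p s - relEnt p r) z := by
    ext z
    by_cases hz : (z.1 : ℝ) < ε ∨ (z.2 : ℝ) < ε
    · have hz' : z ∉ ((hubSet ε)ᶜ ×ˢ (hubSet ε)ᶜ) := by
        rintro ⟨h3, h4⟩
        rcases hz with hz | hz
        · exact h3 hz
        · exact h4 hz
      rw [Set.indicator_of_notMem hz']
      simp [hub, hz]
    · have hz' : z ∈ ((hubSet ε)ᶜ ×ˢ (hubSet ε)ᶜ) := by
        push Not at hz
        exact ⟨not_lt.2 hz.1, not_lt.2 hz.2⟩
      rw [Set.indicator_of_mem hz']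
      simp [hub, hz]
  rw [e, integral_add (integrable_const _) ((integrable_const _).indicator hB),
    integral_indicator_const _ hB]
  simp only [integral_const, probReal_univ, smul_eq_mul, one_mul]
  have hv : (volume : Measure (unitInterval × unitInterval)).real ((hubSet ε)ᶜ ×ˢ (hubSet ε)ᶜ) = (1 - ε) ^ 2 := by
    rw [Measure.volume_eq_prod, measureReal_prod_prod, real_hubSet_compl h0 h1]
    ring
  rw [hv]

section Graph

variable {V : Type*} [Fintype V] [DecidableEq V] (H : SimpleGraph V) [DecidableRel H.Adj]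

theorem hub_density {ε r s : ℝ} (hr : 0 ≤ r) (hr1 : r ≤ 1) (hs : 0 ≤ s) (hs1 : s ≤ 1)
    (h0 : 0 ≤ ε) (h1 : ε ≤ 1) :
    (1 - ε) ^ Fintype.card V * s ^ H.edgeFinset.card +
      ∑ v, ε * (1 - ε) ^ (Fintype.card V - 1) *
        (r ^ H.degree v * s ^ (H.edgeFinset.card - H.degree v)) ≤
      homDensity H (hub ε r s hr hr1 hs hs1) := by
  classical
  set A := hubSet ε with hA
  have hAm : MeasurableSet A := measurableSet_hubSet ε
  let E0 : Set (V → unitInterval) := Set.univ.pi fun _ => Aᶜ
  let E : V → Set (V → unitInterval) := fun v => Set.univ.pi fun w => if w = v then A else Aᶜ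
  have hE0 : MeasurableSet E0 := MeasurableSet.univ_pi fun _ => hAm.compl
  have hE : ∀ v, MeasurableSet (E v) := fun v => MeasurableSet.univ_pi fun w => by
    split_ifs
    · exact hAm
    · exact hAm.compl
  set c : V → ℝ := fun v => r ^ H.degree v * s ^ (H.edgeFinset.card - H.degree v) with hc
  have hv0 : (volume : Measure (V → unitInterval)).real E0 = (1 - ε) ^ Fintype.card V := by
    rw [volume_real_pi]
    simp [real_hubSet_compl h0 h1, hA]
  have hv : ∀ v, (volume : Measure (V → unitInterval)).real (E v) = ε * (1 - ε) ^ (Fintype.card V - 1) := by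
    intro v
    rw [volume_real_pi]
    rw [← Finset.mul_prod_erase univ _ (Finset.mem_univ v)]
    rw [if_pos rfl, real_hubSet h0 h1]
    congr 1
    rw [Finset.prod_congr rfl (g := fun _ => 1 - ε)]
    · rw [Finset.prod_const, Finset.card_erase_of_mem (Finset.mem_univ v), Finset.card_univ]
    · intro w hw
      rw [if_neg (Finset.ne_of_mem_erase hw), real_hubSet_compl h0 h1]
  have hint : ∫ x : V → unitInterval, (E0.indicator (fun _ => s ^ H.edgeFinset.card) x +
      ∑ v, (E v).indicator (fun _ => c v) x) =
      (1 - ε) ^ Fintype.card V * s ^ H.edgeFinset.card +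
      ∑ v, ε * (1 - ε) ^ (Fintype.card V - 1) * c v := by
    have i0 : Integrable (E0.indicator (fun _ => s ^ H.edgeFinset.card)) :=
      (integrable_const _).indicator hE0
    have i1 : ∀ v ∈ (univ : Finset V), Integrable ((E v).indicator (fun _ => c v)) :=
      fun v _ => (integrable_const _).indicator (hE v)
    rw [integral_add i0 (integrable_finsetSum _ i1), integral_finsetSum _ i1,
      integral_indicator_const _ hE0, hv0, smul_eq_mul]
    congr 1
    apply Finset.sum_congr rfl
    intro v _
    rw [integral_indicator_const _ (hE v), hv, smul_eq_mul]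
  rw [← hint]
  unfold homDensity
  apply integral_mono
  · refine ((integrable_const _).indicator hE0).add (integrable_finsetSum _ fun v _ => ?_)
    exact (integrable_const _).indicator (hE v)
  · refine Graphon.integrable_of_bdd
      (Finset.measurable_prod _ fun e _ => (hub ε r s hr hr1 hs hs1).measurable_edge e)
      (C := 1) fun x => ?_
    rw [abs_of_nonneg (Finset.prod_nonneg fun e _ => Graphon.edge_nonneg _ x e)]
    exact Finset.prod_le_one (fun e _ => Graphon.edge_nonneg _ x e)
      fun e _ => Graphon.edge_le_one _ x e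
  intro x
  simp only
  have hnn : 0 ≤ ∏ e ∈ H.edgeFinset, (hub ε r s hr hr1 hs hs1).edge x e :=
    Finset.prod_nonneg fun e _ => Graphon.edge_nonneg _ x e
  by_cases hx0 : x ∈ E0
  · have hxE : ∀ v, x ∉ E v := by
      intro v hv
      have h1 := hx0 v (Set.mem_univ v)
      have h2 := hv v (Set.mem_univ v)
      simp only [if_true] at h2
      exact h1 h2
    rw [Set.indicator_of_mem hx0]
    rw [Finset.sum_eq_zero fun v _ => Set.indicator_of_notMem (hxE v) _, add_zero]
    apply le_of_eq
    rw [← Finset.prod_const]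
    apply Finset.prod_congr rfl
    intro e
    induction e using Sym2.ind with
    | _ i j =>
      intro _
      have h1 := hx0 i (Set.mem_univ i)
      have h2 := hx0 j (Set.mem_univ j)
      have h1' : ¬ (x i : ℝ) < ε := h1
      have h2' : ¬ (x j : ℝ) < ε := h2
      simp [hub, h1', h2']
  · rw [Set.indicator_of_notMem hx0, zero_add]
    by_cases hxE : ∃ v, x ∈ E v
    · obtain ⟨v, hv⟩ := hxE
      rw [Finset.sum_eq_single v]
      · rw [Set.indicator_of_mem hv]
        apply le_of_eq
        have hmemv : (x v : ℝ) < ε := by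
          have := hv v (Set.mem_univ v)
          simp only [if_true] at this
          exact this
        have hnot : ∀ w, w ≠ v → ¬ (x w : ℝ) < ε := by
          intro w hw
          have := hv w (Set.mem_univ w)
          simp only [if_neg hw] at this
          exact this
        have hval : ∀ e ∈ H.edgeFinset, (hub ε r s hr hr1 hs hs1).edge x e =
            if v ∈ e then r else s := by
          intro e
          induction e using Sym2.ind with
          | _ i j =>
            intro he
            have hij : H.Adj i j := by simpa using he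
            simp only [Graphon.edge_mk, hub, Sym2.mem_iff]
            by_cases h1 : v = i
            · subst h1; simp [hmemv]
            · by_cases h2 : v = j
              · subst h2; simp [hmemv]
              · have h3 := hnot i (fun h => h1 h.symm)
                have h4 := hnot j (fun h => h2 h.symm)
                simp [h1, h2, h3, h4]
        rw [Finset.prod_congr rfl hval, Finset.prod_ite, Finset.prod_const, Finset.prod_const,
          card_filter_edge]
        have hcard : (H.edgeFinset.filter fun e => v ∉ e).card =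
            H.edgeFinset.card - H.degree v := by
          have := Finset.card_filter_add_card_filter_not (s := H.edgeFinset) (fun e => v ∈ e)
          rw [card_filter_edge] at this
          omega
        rw [hcard]
      · intro w _ hwv
        apply Set.indicator_of_notMem
        intro hw
        have h1 := hw w (Set.mem_univ w)
        have h2 := hv w (Set.mem_univ w)
        simp only [if_true] at h1
        simp only [if_neg hwv] at h2
        exact h2 h1
      · intro h; exact absurd (Finset.mem_univ v) h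
    · push Not at hxE
      rw [Finset.sum_eq_zero fun v _ => Set.indicator_of_notMem (hxE v) _]
      exact hnn

end Graph

theorem eventually_gt_of_deriv {f : ℝ → ℝ} {f' : ℝ} (h : HasDerivAt f f' 0) (hf : 0 < f') :
    ∀ᶠ ε in 𝓝[>] (0:ℝ), f 0 < f ε := by
  have h1 := (hasDerivAt_iff_tendsto_slope.1 h).eventually (lt_mem_nhds hf)
  have h2 : 𝓝[>] (0:ℝ) ≤ 𝓝[≠] 0 := nhdsWithin_mono _ fun x hx => ne_of_gt hx
  filter_upwards [h2 h1, self_mem_nhdsWithin] with ε hε hpos
  have hpos' : 0 < ε := hpos
  rw [slope_def_field, sub_zero] at hε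
  have := mul_pos hε hpos'
  rw [div_mul_cancel₀ _ hpos'.ne'] at this
  linarith

theorem hasDerivAt_relEnt {p q : ℝ} (hp : 0 < p) (hp1 : p < 1) (hq : 0 < q) (hq1 : q < 1) :
    HasDerivAt (fun x => relEnt p x) (logit q - logit p) q := by
  have hc : ∀ᶠ x in 𝓝 q, relEnt p x =
      g (2 * x - 1) - Real.log 2 - x * Real.log p - (1 - x) * Real.log (1 - p) := by
    filter_upwards [Ioo_mem_nhds hq hq1] with x hx
    exact relEnt_eq hp hp1 hx.1.le hx.2.le
  have h1 : HasDerivAt (fun x : ℝ => g (2 * x - 1)) (X (2 * q - 1)) q := by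
    have hg := hasDerivAt_g (t := 2 * q - 1) (by linarith) (by linarith)
    have hl : HasDerivAt (fun x : ℝ => 2 * x - 1) 2 q := by
      simpa using ((hasDerivAt_id q).const_mul 2).sub_const 1
    have := hg.comp q hl
    refine this.congr_deriv ?_
    ring
  have h2 : HasDerivAt (fun x : ℝ => g (2 * x - 1) - Real.log 2 - x * Real.log p -
      (1 - x) * Real.log (1 - p)) (X (2 * q - 1) - Real.log p + Real.log (1 - p)) q := by
    have ha := ((h1.sub_const (Real.log 2)).sub ((hasDerivAt_id q).mul_const (Real.log p))).sub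
      (((hasDerivAt_id q).const_sub 1).mul_const (Real.log (1 - p)))
    refine ha.congr_deriv ?_
    ring
  have h3 := h2.congr_of_eventuallyEq hc
  refine h3.congr_deriv ?_
  have h1q : (0:ℝ) < 1 - q := by linarith
  unfold X logit
  have e1 : Real.log (1 + (2 * q - 1)) = Real.log 2 + Real.log q := by
    rw [← Real.log_mul (by norm_num) hq.ne']; ring_nf
  have e2 : Real.log (1 - (2 * q - 1)) = Real.log 2 + Real.log (1 - q) := by
    rw [← Real.log_mul (by norm_num) h1q.ne']; ring_nf
  rw [e1, e2]
  ring

section Graph2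

variable {V : Type*} [Fintype V] [DecidableEq V] (H : SimpleGraph V) [DecidableRel H.Adj]

theorem degree_le_card (v : V) : H.degree v ≤ H.edgeFinset.card := by
  rw [← card_filter_edge]
  exact Finset.card_filter_le _ _

/-- The hub construction breaks the symmetry when the entropy inequality fails at some `r`. -/
theorem hub_breaks (hE : 0 < H.edgeFinset.card) {p q r : ℝ} (hp : 0 < p) (hpq : p ≤ q)
    (hq1 : q < 1) (hr : 0 ≤ r) (hr1 : r ≤ 1)
    (h : relEnt p r - relEnt p q <
      (q * (logit q - logit p) / (2 * H.edgeFinset.card)) * ∑ v, ((r / q) ^ H.degree v - 1)) :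
    ∃ W : Graphon, q ^ H.edgeFinset.card ≤ homDensity H W ∧ cost p W < relEnt p q := by
  have hq : 0 < q := lt_of_lt_of_le hp hpq
  have hp1 : p < 1 := lt_of_le_of_lt hpq hq1
  set e : ℕ := H.edgeFinset.card with he
  set L := logit q - logit p with hL
  have hL0 : 0 ≤ L := by
    rw [hL]
    unfold logit
    have h1 : Real.log p ≤ Real.log q := Real.log_le_log hp hpq
    have h2 : Real.log (1 - q) ≤ Real.log (1 - p) := Real.log_le_log (by linarith) (by linarith)
    linarith
  set Ψ := ∑ v, ((r / q) ^ H.degree v - 1) with hΨ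
  have he0 : (0:ℝ) < e := by exact_mod_cast hE
  -- choice of c
  set gap := -(2 * (relEnt p r - relEnt p q) + (-(q * Ψ / e)) * L) with hgap
  have hgap0 : 0 < gap := by
    rw [hgap]
    have : q * L / (2 * e) * Ψ = q * Ψ / e * L / 2 := by field_simp
    rw [this] at h
    linarith
  set η := gap / (2 * (L + 1)) with hη
  have hη0 : 0 < η := by positivity
  have hηL : η * L < gap := by
    rw [hη, div_mul_eq_mul_div, div_lt_iff₀ (by positivity)]
    nlinarith
  set c := -(q * Ψ / e) + η with hc
  -- the density
  let F : ℝ → ℝ := fun ε => (1 - ε) ^ Fintype.card V * (q + c * ε) ^ e +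
      ∑ v, ε * (1 - ε) ^ (Fintype.card V - 1) *
        (r ^ H.degree v * (q + c * ε) ^ (e - H.degree v))
  let C : ℝ → ℝ := fun ε => relEnt p r + (1 - ε) ^ 2 * (relEnt p (q + c * ε) - relEnt p r)
  have hlin : HasDerivAt (fun ε : ℝ => q + c * ε) c 0 := by
    simpa using ((hasDerivAt_id (0:ℝ)).const_mul c).const_add q
  have hlin1 : HasDerivAt (fun ε : ℝ => 1 - ε) (-1) 0 := by
    simpa using (hasDerivAt_id (0:ℝ)).const_sub 1
  have hF0 : F 0 = q ^ e := by simp [F]
  have hC0 : C 0 = relEnt p q := by simp [C]
  have hFd : HasDerivAt F (-(Fintype.card V : ℝ) * q ^ e + e * q ^ (e - 1) * c +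
      ∑ v, r ^ H.degree v * q ^ (e - H.degree v)) 0 := by
    have hA : HasDerivAt (fun ε : ℝ => (1 - ε) ^ Fintype.card V * (q + c * ε) ^ e)
        (-(Fintype.card V : ℝ) * q ^ e + e * q ^ (e - 1) * c) 0 := by
      have := (hlin1.fun_pow (Fintype.card V)).mul (hlin.fun_pow e)
      refine this.congr_deriv ?_
      simp
    have hB : ∀ v ∈ (univ : Finset V), HasDerivAt (fun ε : ℝ => ε * (1 - ε) ^ (Fintype.card V - 1) *
        (r ^ H.degree v * (q + c * ε) ^ (e - H.degree v)))
        (r ^ H.degree v * q ^ (e - H.degree v)) 0 := by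
      intro v _
      have h1 := (hasDerivAt_id (0:ℝ)).mul (hlin1.fun_pow (Fintype.card V - 1))
      have h2 := (hlin.fun_pow (e - H.degree v)).const_mul (r ^ H.degree v)
      have := h1.mul h2
      refine this.congr_deriv ?_
      simp
    have hS := HasDerivAt.fun_sum hB
    exact hA.add hS
  have hCd : HasDerivAt C (-2 * (relEnt p q - relEnt p r) + L * c) 0 := by
    have h1 : HasDerivAt (fun ε : ℝ => relEnt p (q + c * ε)) (L * c) 0 := by
      have hr := hasDerivAt_relEnt hp hp1 hq hq1
      have hr' : HasDerivAt (fun x => relEnt p x) (logit q - logit p) (q + c * 0) := by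
        simpa using hr
      exact hr'.comp (0:ℝ) hlin
    have h2 := (((hlin1.fun_pow 2).mul (h1.sub_const (relEnt p r))).const_add (relEnt p r))
    refine h2.congr_deriv ?_
    simp
  -- positivity of the derivative of F
  have hFpos : 0 < -(Fintype.card V : ℝ) * q ^ e + e * q ^ (e - 1) * c +
      ∑ v, r ^ H.degree v * q ^ (e - H.degree v) := by
    have h1 : ∑ v, r ^ H.degree v * q ^ (e - H.degree v) =
        q ^ e * (Ψ + Fintype.card V) := by
      rw [hΨ, Finset.sum_sub_distrib]
      simp only [sum_const, card_univ, nsmul_eq_mul, mul_one, sub_add_cancel]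
      rw [Finset.mul_sum]
      apply Finset.sum_congr rfl
      intro v _
      have hd := degree_le_card H v
      have hpow : q ^ e = q ^ (e - H.degree v) * q ^ H.degree v := by
        rw [← pow_add, Nat.sub_add_cancel hd]
      have : q ^ H.degree v ≠ 0 := by positivity
      rw [div_pow, hpow]
      field_simp
    have h2 : (e:ℝ) * q ^ (e - 1) * c = q ^ e * (-Ψ + e * η / q) := by
      have : q ^ e = q ^ (e - 1) * q := by
        rw [← pow_succ, Nat.sub_add_cancel hE]
      rw [this, hc]
      field_simp
    rw [h1, h2]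
    have : -(Fintype.card V : ℝ) * q ^ e + q ^ e * (-Ψ + e * η / q) +
        q ^ e * (Ψ + Fintype.card V) = q ^ e * (e * η / q) := by ring
    rw [this]
    positivity
  have hCneg : 0 < -(-2 * (relEnt p q - relEnt p r) + L * c) := by
    rw [hc]
    rw [hgap] at hηL
    linarith
  have ev1 := eventually_gt_of_deriv hFd hFpos
  have ev2 := eventually_gt_of_deriv (f := fun ε => - C ε) hCd.neg hCneg
  have ev3 : ∀ᶠ ε in 𝓝[>] (0:ℝ), ε ∈ Set.Ioo (0:ℝ) 1 := Ioo_mem_nhdsGT one_pos
  have ev4 : ∀ᶠ ε in 𝓝[>] (0:ℝ), q + c * ε ∈ Set.Ioo (0:ℝ) 1 := by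
    have hcont : Filter.Tendsto (fun ε : ℝ => q + c * ε) (𝓝[>] 0) (𝓝 (q + c * 0)) :=
      (hlin.continuousAt.tendsto).mono_left nhdsWithin_le_nhds
    rw [mul_zero, add_zero] at hcont
    exact hcont.eventually (Ioo_mem_nhds hq hq1)
  obtain ⟨ε, h1, h2, h3, h4⟩ := (ev1.and (ev2.and (ev3.and ev4))).exists
  refine ⟨hub ε r (q + c * ε) hr hr1 h4.1.le h4.2.le, ?_, ?_⟩
  · have hd := hub_density H (ε := ε) (r := r) (s := q + c * ε) hr hr1 h4.1.le h4.2.le h3.1.le h3.2.le
    rw [hF0] at h1
    exact h1.le.trans hd
  · rw [hub_cost (p := p) hr hr1 h4.1.le h4.2.le h3.1.le h3.2.le]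
    have : C ε < C 0 := by linarith
    rw [hC0] at this
    exact this

end Graph2

end Pool.Agent.W_MP_bbc525_pr
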