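import Pool.Agent.W_MP_bbc525_pr.HomBound

/-!
# Linearised consequences of `q ^ e(H) ≤ t(H, W)`
-/

namespace Pool.Agent.W_MP_bbc525_pr

open MeasureTheory Finset


section Proj

variable (W : Graphon)

theorem Graphon.integral_iter {f : unitInterval → unitInterval → ℝ} (hf : Integrable (fun z : unitInterval × unitInterval => f z.1 z.2)) :
    ∫ z : unitInterval × unitInterval, f z.1 z.2 = ∫ x, ∫ y, f x y := by
  rw [Measure.volume_eq_prod] at hf ⊢
  exact integral_prod _ hf

theorem Graphon.mean_eq : W.mean = ∫ x, W.dg x := by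
  rw [Graphon.mean, Graphon.integral_iter W.integrable_W]
  rfl

/-- The projection bound: `2 ∫ d² ≤ ∫∫ W² + (∫∫ W)²`. -/
theorem Graphon.dg2_le : 2 * W.dg2 ≤ W.mom 2 + W.mean ^ 2 := by
  set a := W.mean with ha
  have hdm := W.measurable_dg
  have hb : ∀ x, |W.dg x| ≤ 1 := fun x => by
    rw [abs_of_nonneg (W.dg_nonneg x)]; exact W.dg_le_one x
  have i1 : Integrable (fun z : unitInterval × unitInterval => W.W z.1 z.2 ^ 2) := W.integrable_pow 2
  have mW := W.measurable_prod
  have md1 : Measurable (fun z : unitInterval × unitInterval => W.dg z.1) := hdm.comp measurable_fst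
  have md2 : Measurable (fun z : unitInterval × unitInterval => W.dg z.2) := hdm.comp measurable_snd
  have i2 : Integrable (fun z : unitInterval × unitInterval => W.W z.1 z.2 * W.dg z.1) :=
    Graphon.integrable_of_bdd (mW.mul md1) (C := 1) fun z => by
      rw [abs_mul]
      exact mul_le_one₀ (W.abs_le _ _) (abs_nonneg _) (hb _)
  have i3 : Integrable (fun z : unitInterval × unitInterval => W.W z.1 z.2 * W.dg z.2) :=
    Graphon.integrable_of_bdd (mW.mul md2) (C := 1) fun z => by
      rw [abs_mul]
      exact mul_le_one₀ (W.abs_le _ _) (abs_nonneg _) (hb _)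
  have i4 : Integrable (fun z : unitInterval × unitInterval => W.dg z.1 ^ 2) :=
    Graphon.integrable_of_bdd (md1.pow_const 2) (C := 1) fun z => by
      rw [abs_pow]; exact pow_le_one₀ (abs_nonneg _) (hb _)
  have i5 : Integrable (fun z : unitInterval × unitInterval => W.dg z.2 ^ 2) :=
    Graphon.integrable_of_bdd (md2.pow_const 2) (C := 1) fun z => by
      rw [abs_pow]; exact pow_le_one₀ (abs_nonneg _) (hb _)
  have i6 : Integrable (fun z : unitInterval × unitInterval => W.dg z.1 * W.dg z.2) :=
    Graphon.integrable_of_bdd (md1.mul md2) (C := 1) fun z => by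
      rw [abs_mul]
      exact mul_le_one₀ (hb _) (abs_nonneg _) (hb _)
  have i7 : Integrable (fun z : unitInterval × unitInterval => W.dg z.1) :=
    Graphon.integrable_of_bdd md1 (C := 1) fun z => hb _
  have i8 : Integrable (fun z : unitInterval × unitInterval => W.dg z.2) :=
    Graphon.integrable_of_bdd md2 (C := 1) fun z => hb _
  have i9 : Integrable (fun z : unitInterval × unitInterval => W.W z.1 z.2) := W.integrable_W
  -- values
  have v2 : ∫ z : unitInterval × unitInterval, W.W z.1 z.2 * W.dg z.1 = W.dg2 := by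
    rw [Graphon.integral_iter (f := fun x y => W.W x y * W.dg x) i2]
    simp only [Graphon.dg2]
    congr 1
    ext x
    rw [integral_mul_const, sq]
    rfl
  have v3 : ∫ z : unitInterval × unitInterval, W.W z.1 z.2 * W.dg z.2 = W.dg2 := by
    rw [← v2]
    rw [Measure.volume_eq_prod, ← integral_prod_swap]
    congr 1
    ext z
    simp only [Prod.fst_swap, Prod.snd_swap]
    rw [W.symm]
  have v4 : ∫ z : unitInterval × unitInterval, W.dg z.1 ^ 2 = W.dg2 := by
    rw [Graphon.integral_iter (f := fun x _ => W.dg x ^ 2) i4]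
    simp [Graphon.dg2]
  have v5 : ∫ z : unitInterval × unitInterval, W.dg z.2 ^ 2 = W.dg2 := by
    rw [Graphon.integral_iter (f := fun _ y => W.dg y ^ 2) i5]
    simp [Graphon.dg2]
  have v6 : ∫ z : unitInterval × unitInterval, W.dg z.1 * W.dg z.2 = a ^ 2 := by
    rw [Graphon.integral_iter (f := fun x y => W.dg x * W.dg y) i6]
    have : ∀ x, ∫ y, W.dg x * W.dg y = W.dg x * a := by
      intro x
      rw [integral_const_mul, ha, W.mean_eq]
    simp_rw [this]
    rw [integral_mul_const, ← W.mean_eq, sq]
  have v7 : ∫ z : unitInterval × unitInterval, W.dg z.1 = a := by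
    rw [Graphon.integral_iter (f := fun x _ => W.dg x) i7]
    simp [ha, W.mean_eq]
  have v8 : ∫ z : unitInterval × unitInterval, W.dg z.2 = a := by
    rw [Graphon.integral_iter (f := fun _ y => W.dg y) i8]
    simp [ha, W.mean_eq]
  have hnn : 0 ≤ ∫ z : unitInterval × unitInterval, (W.W z.1 z.2 - (W.dg z.1 + W.dg z.2 - a)) ^ 2 :=
    integral_nonneg fun _ => sq_nonneg _
  let c : Fin 10 → ℝ := ![1, -2, -2, 2 * a, 1, 1, 2, -2 * a, -2 * a, a ^ 2]
  let φ : Fin 10 → unitInterval × unitInterval → ℝ := ![fun z => W.W z.1 z.2 ^ 2, fun z => W.W z.1 z.2 * W.dg z.1,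
    fun z => W.W z.1 z.2 * W.dg z.2, fun z => W.W z.1 z.2, fun z => W.dg z.1 ^ 2,
    fun z => W.dg z.2 ^ 2, fun z => W.dg z.1 * W.dg z.2, fun z => W.dg z.1, fun z => W.dg z.2,
    fun _ => 1]
  have hφ : ∀ i, Integrable (φ i) := by
    intro i
    fin_cases i
    · exact i1
    · exact i2
    · exact i3
    · exact i9
    · exact i4
    · exact i5
    · exact i6
    · exact i7
    · exact i8
    · exact integrable_const 1
  have key : ∫ z, ∑ i : Fin 10, c i * φ i z = ∑ i : Fin 10, c i * ∫ z, φ i z := by
    rw [integral_finsetSum _ fun i _ => (hφ i).const_mul (c i)]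
    apply Finset.sum_congr rfl
    intro i _
    rw [integral_const_mul]
  have hexp : (fun z : unitInterval × unitInterval => (W.W z.1 z.2 - (W.dg z.1 + W.dg z.2 - a)) ^ 2) =
      fun z : unitInterval × unitInterval => ∑ i : Fin 10, c i * φ i z := by
    ext z
    simp [c, φ, Fin.sum_univ_succ]
    ring
  rw [hexp, key] at hnn
  have e9 : ∫ z : unitInterval × unitInterval, W.W z.1 z.2 = a := rfl
  have e1 : ∫ z : unitInterval × unitInterval, W.W z.1 z.2 ^ 2 = W.mom 2 := rfl
  simp [c, φ, Fin.sum_univ_succ, v2, v3, v4, v5, v6, v7, v8, e9, e1] at hnn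
  nlinarith

end Proj

section Graph

variable {V : Type*} [Fintype V] [DecidableEq V] (H : SimpleGraph V) [DecidableRel H.Adj]
  (W : Graphon)

/-- Weighted handshake lemma. -/
theorem sum_edge_sum (φ : V → ℝ) :
    ∑ e ∈ H.edgeFinset, ∑ v with v ∈ e, φ v = ∑ v, (H.degree v : ℝ) * φ v := by
  simp_rw [Finset.sum_filter]
  rw [Finset.sum_comm]
  apply Finset.sum_congr rfl
  intro v _
  rw [← Finset.sum_filter, Finset.sum_const, card_filter_edge, nsmul_eq_mul]

theorem sum_mem_mk {i j : V} (hij : i ≠ j) (φ : V → ℝ) :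
    ∑ v with v ∈ s(i, j), φ v = φ i + φ j := by
  have : (univ.filter fun v => v ∈ s(i, j)) = {i, j} := by
    ext v; simp
  rw [this, Finset.sum_pair hij]

/-- number of vertices of degree `k` -/
noncomputable def nDeg (k : ℕ) : ℕ := (univ.filter fun v => H.degree v = k).card

/-- number of edges with exactly one endpoint of degree 1 -/
noncomputable def nB : ℕ := (H.edgeFinset.filter fun e =>
  ¬ (∀ v ∈ e, H.degree v ≠ 1) ∧ ¬ (∀ v ∈ e, H.degree v = 1)).card

theorem card_edges (hH : ∀ v, H.degree v ≤ 2) :
    (2 : ℝ) * H.edgeFinset.card = 2 * nDeg H 2 + nDeg H 1 := by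
  have h1 := H.sum_degrees_eq_twice_card_edges
  have h2 : ∑ v, H.degree v = 2 * nDeg H 2 + nDeg H 1 := by
    have : ∀ v, H.degree v = 2 * (if H.degree v = 2 then 1 else 0) +
        (if H.degree v = 1 then 1 else 0) := by
      intro v
      have := hH v
      interval_cases H.degree v <;> simp
    rw [Finset.sum_congr rfl fun v _ => this v, Finset.sum_add_distrib, ← Finset.mul_sum]
    simp [nDeg, Finset.sum_boole]
  have : 2 * H.edgeFinset.card = 2 * nDeg H 2 + nDeg H 1 := by rw [← h1, h2]
  exact_mod_cast this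

theorem nB_le_two (hH : ∀ v, H.degree v ≤ 2) : nB H ≤ 2 * nDeg H 2 := by
  have : (nB H : ℝ) ≤ 2 * nDeg H 2 := by
    have h := sum_edge_sum H (fun v => if H.degree v = 2 then (1:ℝ) else 0)
    have h2 : ∑ v, (H.degree v : ℝ) * (if H.degree v = 2 then (1:ℝ) else 0) = 2 * nDeg H 2 := by
      have : ∀ v, (H.degree v : ℝ) * (if H.degree v = 2 then (1:ℝ) else 0) =
          2 * (if H.degree v = 2 then (1:ℝ) else 0) := by
        intro v
        split_ifs with h
        · rw [h]; norm_num
        · simp
      rw [Finset.sum_congr rfl fun v _ => this v, ← Finset.mul_sum]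
      simp [nDeg]
    rw [← h2, ← h, nB, Finset.card_filter]
    push_cast
    apply Finset.sum_le_sum
    intro e
    induction e using Sym2.ind with
    | _ i j =>
      intro he
      have hadj : H.Adj i j := by simpa using he
      rw [sum_mem_mk hadj.ne]
      have hpi : 0 < H.degree i := (H.degree_pos_iff_exists_adj i).2 ⟨j, hadj⟩
      have hpj : 0 < H.degree j := (H.degree_pos_iff_exists_adj j).2 ⟨i, hadj.symm⟩
      split_ifs with h1 h2 h3 h3 h2 h3 <;> norm_num
      exfalso
      apply h1.2
      intro v hv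
      rcases Sym2.mem_iff.1 hv with rfl | rfl
      · have := hH v; omega
      · have := hH v; omega
  exact_mod_cast this

theorem nB_le_one : nB H ≤ nDeg H 1 := by
  have : (nB H : ℝ) ≤ nDeg H 1 := by
    have h := sum_edge_sum H (fun v => if H.degree v = 1 then (1:ℝ) else 0)
    have h2 : ∑ v, (H.degree v : ℝ) * (if H.degree v = 1 then (1:ℝ) else 0) = nDeg H 1 := by
      have : ∀ v, (H.degree v : ℝ) * (if H.degree v = 1 then (1:ℝ) else 0) =
          (if H.degree v = 1 then (1:ℝ) else 0) := by
        intro v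
        split_ifs with h
        · rw [h]; norm_num
        · simp
      rw [Finset.sum_congr rfl fun v _ => this v]
      simp [nDeg]
    rw [← h2, ← h, nB, Finset.card_filter]
    push_cast
    apply Finset.sum_le_sum
    intro e
    induction e using Sym2.ind with
    | _ i j =>
      intro he
      have hadj : H.Adj i j := by simpa using he
      rw [sum_mem_mk hadj.ne]
      split_ifs with h1 h2 h3 h3 h2 h3 <;> norm_num
      exfalso
      apply h1.1
      intro v hv
      rcases Sym2.mem_iff.1 hv with rfl | rfl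
      · exact h2
      · exact h3
  exact_mod_cast this

/-- The linearised constraint for graphs of maximum degree at most two. -/
theorem linear_constraint (hH : ∀ v, H.degree v ≤ 2) {q : ℝ} (hq : 0 < q)
    (ht : q ^ H.edgeFinset.card ≤ homDensity H W) :
    0 ≤ 2 * (nDeg H 2 : ℝ) * (W.mom 2 / q ^ 2 - 1) + 2 * (nDeg H 1 : ℝ) * (W.mean / q - 1) +
      (nB H : ℝ) * (W.mean / q - 1) ^ 2 := by
  set z := W.mom 2 / q ^ 2 - 1 with hz
  set y := W.mean / q - 1 with hy
  let φ : V → ℝ := fun v => if H.degree v = 1 then y / 2 else z / 4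
  let c : Sym2 V → ℝ := fun e => ∑ v with v ∈ e, φ v +
    (if ¬ (∀ v ∈ e, H.degree v ≠ 1) ∧ ¬ (∀ v ∈ e, H.degree v = 1) then y ^ 2 / 4 else 0)
  have hsqrt : ∀ s r : ℝ, 0 ≤ s → s ≤ 1 + r → Real.sqrt s ≤ Real.exp (r / 2) := by
    intro s r hs hsr
    have : s ≤ Real.exp r := by
      have := Real.add_one_le_exp r
      linarith
    calc Real.sqrt s ≤ Real.sqrt (Real.exp r) := Real.sqrt_le_sqrt this
      _ = Real.exp (r / 2) := by
        rw [Real.sqrt_eq_iff_mul_self_eq (Real.exp_pos _).le (Real.exp_pos _).le, ← Real.exp_add]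
        ring_nf
  have hfac : ∀ e ∈ H.edgeFinset, fac2 H W e / q ≤ Real.exp (c e) := by
    intro e
    induction e using Sym2.ind with
    | _ i j =>
      intro he
      have hadj : H.Adj i j := by simpa using he
      have hij := hadj.ne
      have hM : Real.sqrt (W.mom 2) / q = Real.sqrt (W.mom 2 / q ^ 2) := by
        rw [Real.sqrt_div (W.mom_nonneg 2), Real.sqrt_sq hq.le]
      have hD : Real.sqrt W.dg2 / q = Real.sqrt (W.dg2 / q ^ 2) := by
        rw [Real.sqrt_div W.dg2_nonneg, Real.sqrt_sq hq.le]
      have hDle : W.dg2 / q ^ 2 ≤ 1 + (z + 2 * y + y ^ 2) / 2 := by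
        have h1 := W.dg2_le
        have h2 : W.dg2 / q ^ 2 ≤ (W.mom 2 + W.mean ^ 2) / 2 / q ^ 2 := by
          gcongr; linarith
        have h3 : (W.mom 2 + W.mean ^ 2) / 2 / q ^ 2 = 1 + (z + 2 * y + y ^ 2) / 2 := by
          rw [hz, hy]
          field_simp
          ring
        rw [h3] at h2
        exact h2
      have hsD := hsqrt (W.dg2 / q ^ 2) _ (div_nonneg W.dg2_nonneg (by positivity)) hDle
      have hsM := hsqrt (W.mom 2 / q ^ 2) z (div_nonneg (W.mom_nonneg 2) (by positivity))
        (by rw [hz]; linarith)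
      by_cases hi : H.degree i = 1 <;> by_cases hj : H.degree j = 1
      · have n1 : ¬ ∀ v ∈ s(i, j), H.degree v ≠ 1 := by
          push Not
          exact ⟨i, Sym2.mem_mk_left i j, hi⟩
        have n2 : ∀ v ∈ s(i, j), H.degree v = 1 := by
          intro v hv
          rcases Sym2.mem_iff.1 hv with rfl | rfl <;> assumption
        have ec : c s(i, j) = y := by
          simp only [c]
          rw [sum_mem_mk hij, if_neg (fun h => h.2 n2)]
          simp only [φ, if_pos hi, if_pos hj]
          ring
        have ef : fac2 H W s(i, j) = W.mean := by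
          unfold fac2; rw [if_neg n1, if_pos n2]
        rw [ec, ef]
        have := Real.add_one_le_exp y
        have e2 : W.mean / q = y + 1 := by rw [hy]; ring
        rw [e2]; exact this
      · have n1 : ¬ ∀ v ∈ s(i, j), H.degree v ≠ 1 := by
          push Not
          exact ⟨i, Sym2.mem_mk_left i j, hi⟩
        have n2 : ¬ ∀ v ∈ s(i, j), H.degree v = 1 := by
          push Not
          exact ⟨j, Sym2.mem_mk_right i j, hj⟩
        have ec : c s(i, j) = (z + 2 * y + y ^ 2) / 2 / 2 := by
          simp only [c]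
          rw [sum_mem_mk hij, if_pos ⟨n1, n2⟩]
          simp only [φ, if_pos hi, if_neg hj]
          ring
        have ef : fac2 H W s(i, j) = Real.sqrt W.dg2 := by
          unfold fac2; rw [if_neg n1, if_neg n2]
        rw [ec, ef, hD]
        exact hsD
      · have n1 : ¬ ∀ v ∈ s(i, j), H.degree v ≠ 1 := by
          push Not
          exact ⟨j, Sym2.mem_mk_right i j, hj⟩
        have n2 : ¬ ∀ v ∈ s(i, j), H.degree v = 1 := by
          push Not
          exact ⟨i, Sym2.mem_mk_left i j, hi⟩
        have ec : c s(i, j) = (z + 2 * y + y ^ 2) / 2 / 2 := by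
          simp only [c]
          rw [sum_mem_mk hij, if_pos ⟨n1, n2⟩]
          simp only [φ, if_neg hi, if_pos hj]
          ring
        have ef : fac2 H W s(i, j) = Real.sqrt W.dg2 := by
          unfold fac2; rw [if_neg n1, if_neg n2]
        rw [ec, ef, hD]
        exact hsD
      · have n1 : ∀ v ∈ s(i, j), H.degree v ≠ 1 := by
          intro v hv
          rcases Sym2.mem_iff.1 hv with rfl | rfl <;> assumption
        have ec : c s(i, j) = z / 2 := by
          simp only [c]
          rw [sum_mem_mk hij, if_neg (fun h => h.1 n1)]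
          simp only [φ, if_neg hi, if_neg hj]
          ring
        have ef : fac2 H W s(i, j) = Real.sqrt (W.mom 2) := by
          unfold fac2; rw [if_pos n1]
        rw [ec, ef, hM]
        exact hsM
  have h1 : 1 ≤ Real.exp (∑ e ∈ H.edgeFinset, c e) := by
    rw [Real.exp_sum]
    calc (1 : ℝ) ≤ homDensity H W / q ^ H.edgeFinset.card := by
          rw [le_div_iff₀ (by positivity), one_mul]; exact ht
      _ ≤ (∏ e ∈ H.edgeFinset, fac2 H W e) / q ^ H.edgeFinset.card := by
          gcongr
          exact homDensity_le_fac2 H W hH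
      _ = ∏ e ∈ H.edgeFinset, (fac2 H W e / q) := by
          rw [Finset.prod_div_distrib, Finset.prod_const]
      _ ≤ ∏ e ∈ H.edgeFinset, Real.exp (c e) := by
          apply Finset.prod_le_prod
          · intro e _
            exact div_nonneg (fac2_nonneg H W e) hq.le
          · exact hfac
  have h2 : 0 ≤ ∑ e ∈ H.edgeFinset, c e := by
    by_contra hlt
    push Not at hlt
    have := Real.exp_lt_exp.2 hlt
    rw [Real.exp_zero] at this
    linarith
  have h3 : ∑ e ∈ H.edgeFinset, c e = (2 * (nDeg H 2 : ℝ)) * (z / 4) + (nDeg H 1 : ℝ) * (y / 2) +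
      (nB H : ℝ) * (y ^ 2 / 4) := by
    simp only [c]
    rw [Finset.sum_add_distrib, sum_edge_sum, ← Finset.sum_filter, Finset.sum_const, nsmul_eq_mul]
    congr 1
    have : ∀ v, (H.degree v : ℝ) * φ v = (if H.degree v = 2 then (2 : ℝ) * (z / 4) else 0) +
        (if H.degree v = 1 then y / 2 else 0) := by
      intro v
      have := hH v
      simp only [φ]
      interval_cases H.degree v <;> simp
    rw [Finset.sum_congr rfl fun v _ => this v, Finset.sum_add_distrib, ← Finset.sum_filter,
      ← Finset.sum_filter, Finset.sum_const, Finset.sum_const, nsmul_eq_mul, nsmul_eq_mul]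
    simp only [nDeg]
    ring
  rw [h3] at h2
  nlinarith

end Graph

end Pool.Agent.W_MP_bbc525_pr
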