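import Pool.Agent.W_MP_bbc525_pr.Closed

/-!
# The upper tail replica symmetry phase diagram of every graph of maximum degree two
-/

namespace Pool.Agent.Results.MP_bbc525_pr.MaxDegreeTwo

open Pool.Agent.W_MP_bbc525_pr

/-- **Main theorem.** Let `H` be a finite simple graph with at least one edge in which every
vertex has degree at most two (for example a path, or `K_{1,2}`), let `n₂` be the number of its
vertices of degree two, and let `0 < p ≤ q < 1`. Then the constant graphon `q` is a minimizer of the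
upper tail variational problem exactly when
`n₂ (log (q/(1-q)) - log (p/(1-p))) ≤ 2 e(H) q κ(q)`, and it is then the unique minimizer.
For `q ≠ 1/2` (and `n₂ > 0`) the condition is
`1 ≤ (1 + (q⁻¹ - 1) ^ (1 + (2 e(H)/n₂) q/(1 - 2q))) p`. -/
theorem result {V : Type*} [Fintype V] [DecidableEq V] (H : SimpleGraph V) [DecidableRel H.Adj]
    (hdeg : ∀ v, H.degree v ≤ 2) (hedge : 0 < H.edgeFinset.card)
    {p q : ℝ} (hp : 0 < p) (hpq : p ≤ q) (hq : q < 1) :
    (ReplicaSymmetric H p q ↔
      ((Finset.univ.filter fun v => H.degree v = 2).card : ℝ) *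
        (Real.log (q / (1 - q)) - Real.log (p / (1 - p))) ≤
          2 * H.edgeFinset.card * q * kappa q) ∧
    (ReplicaSymmetric H p q → UniqueMinimizer H p q) ∧
    (0 < (Finset.univ.filter fun v => H.degree v = 2).card → q ≠ 1 / 2 →
      (ReplicaSymmetric H p q ↔
        1 ≤ (1 + (q⁻¹ - 1) ^ (1 + (2 * H.edgeFinset.card /
          ((Finset.univ.filter fun v => H.degree v = 2).card : ℝ)) * q / (1 - 2 * q))) * p)) := by
  have hq0 : 0 < q := lt_of_lt_of_le hp hpq
  have hp1 : p < 1 := lt_of_le_of_lt hpq hq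
  have h := diagram_two H hdeg hedge hp hpq hq
  rw [kq_eq_kappa hq0 hq] at h
  have h1 : ReplicaSymmetric H p q ↔
      ((Finset.univ.filter fun v => H.degree v = 2).card : ℝ) *
        (Real.log (q / (1 - q)) - Real.log (p / (1 - p))) ≤
          2 * H.edgeFinset.card * q * kappa q := by
    rw [logit_eq hq0 hq, logit_eq hp hp1]
    exact h.1
  refine ⟨h1, h.2, fun hn hh => ?_⟩
  rw [← curve_iff hp hp1 hq0 hq hh, h1, logit_eq hq0 hq, logit_eq hp hp1]
  have hn' : (0:ℝ) < ((Finset.univ.filter fun v => H.degree v = 2).card : ℝ) := by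
    exact_mod_cast hn
  rw [div_mul_eq_mul_div, div_mul_eq_mul_div, le_div_iff₀ hn', mul_comm]

end Pool.Agent.Results.MP_bbc525_pr.MaxDegreeTwo
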