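import Pool.Agent.W_MP_bbc525_pr.Final2

/-!
# A sufficient condition for all graphs, exact when every edge joins vertices of equal degree
-/

namespace Pool.Agent.W_MP_bbc525_pr

open MeasureTheory Finset


variable {V : Type*} [Fintype V] [DecidableEq V] (H : SimpleGraph V) [DecidableRel H.Adj]

/-- The larger degree of the two endpoints of an edge. -/
def mdeg (e : Sym2 V) : ℕ :=
  Sym2.lift ⟨fun i j => max (H.degree i) (H.degree j), fun _ _ => max_comm _ _⟩ e

omit [DecidableEq V] in
@[simp] theorem mdeg_mk (i j : V) : mdeg H s(i, j) = max (H.degree i) (H.degree j) := rfl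

theorem degree_le_mdeg {e : Sym2 V} {v : V} (hv : v ∈ e) : H.degree v ≤ mdeg H e := by
  induction e using Sym2.ind with
  | _ i j =>
    rcases Sym2.mem_iff.1 hv with rfl | rfl
    · exact le_max_left _ _
    · exact le_max_right _ _

theorem mdeg_pos {e : Sym2 V} (he : e ∈ H.edgeFinset) : 0 < mdeg H e := by
  induction e using Sym2.ind with
  | _ i j =>
    have hadj : H.Adj i j := by simpa using he
    have : 0 < H.degree i := (H.degree_pos_iff_exists_adj i).2 ⟨j, hadj⟩
    exact lt_of_lt_of_le this (le_max_left _ _)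

theorem homDensity_le_holder (W : Graphon) :
    homDensity H W ≤ ∏ e ∈ H.edgeFinset, W.mom (mdeg H e) ^ (1 / (mdeg H e : ℝ)) := by
  classical
  have hnn : 0 ≤ ∏ e ∈ H.edgeFinset, W.mom (mdeg H e) ^ (1 / (mdeg H e : ℝ)) :=
    Finset.prod_nonneg fun e _ => Real.rpow_nonneg (W.mom_nonneg _) _
  rw [← ENNReal.ofReal_le_ofReal_iff hnn, ofReal_homDensity]
  let x0 : V → unitInterval := fun _ => 0
  let f : Sym2 V → (V → unitInterval) → ENNReal := fun e x => ENNReal.ofReal (W.edge x e)
  have hf : ∀ e, Measurable (f e) := fun e => (W.measurable_edge e).ennreal_ofReal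
  have h := finner (μ := fun _ : V => (volume : Measure unitInterval)) H.edgeFinset
    (f := fun e x => f e x ^ mdeg H e) (fun e => (hf e).pow_const _)
    (fun e v => v ∈ e) (fun e v hv => by
      intro x y
      have := W.noDep_edge e v hv x y
      simp only at this
      simp only [f]
      rw [this]) (fun e => 1 / (mdeg H e : ℝ)) (fun _ => by positivity)
    univ (by
      intro v _
      have hle : ∀ e ∈ H.edgeFinset.filter (fun e => v ∈ e),
          1 / (mdeg H e : ℝ) ≤ 1 / (H.degree v : ℝ) := by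
        intro e he
        rw [mem_filter] at he
        have h1 := degree_le_mdeg H he.2
        have h2 : 0 < H.degree v := by
          rw [← card_filter_edge]
          exact Finset.card_pos.2 ⟨e, mem_filter.2 he⟩
        apply one_div_le_one_div_of_le
        · exact_mod_cast h2
        · exact_mod_cast h1
      refine (Finset.sum_le_sum hle).trans ?_
      rw [Finset.sum_const, card_filter_edge, nsmul_eq_mul, mul_one_div]
      exact div_self_le_one _)
  have hx := h x0
  rw [lmarginal_univ] at hx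
  have e1 : ∀ x : V → unitInterval, (∏ e ∈ H.edgeFinset, (f e x ^ mdeg H e) ^ (1 / (mdeg H e : ℝ))) =
      ∏ e ∈ H.edgeFinset, f e x := by
    intro x
    apply Finset.prod_congr rfl
    intro e he
    have hm := mdeg_pos H he
    have hm' : (mdeg H e : ℝ) ≠ 0 := by exact_mod_cast hm.ne'
    rw [← ENNReal.rpow_natCast, ← ENNReal.rpow_mul, mul_one_div_cancel hm', ENNReal.rpow_one]
  simp only [e1] at hx
  refine hx.trans (le_of_eq ?_)
  rw [ENNReal.ofReal_prod_of_nonneg fun e _ => Real.rpow_nonneg (W.mom_nonneg _) _]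
  apply Finset.prod_congr rfl
  intro e
  induction e using Sym2.ind with
  | _ i j =>
    intro he
    have hadj : H.Adj i j := by simpa using he
    have hWm : Measurable (Function.uncurry fun a b : unitInterval =>
        ENNReal.ofReal (W.W a b) ^ mdeg H s(i, j)) :=
      W.measurable.ennreal_ofReal.pow_const _
    have : (∫⋯∫⁻_univ, (fun x : V → unitInterval => f s(i, j) x ^ mdeg H s(i, j)) ∂(fun _ => volume)) x0 =
        ENNReal.ofReal (W.mom (mdeg H s(i, j))) := by
      simp only [f, Graphon.edge_mk]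
      rw [marg_two (h := fun a b => ENNReal.ofReal (W.W a b) ^ mdeg H s(i, j)) hWm hadj.ne
        (Finset.mem_univ i) (Finset.mem_univ j), W.lint_pow]
    rw [this, ENNReal.ofReal_rpow_of_nonneg (W.mom_nonneg _) (by positivity)]

/-- `x ^ (1/m) ≤ exp ((x - 1)/m)`. -/
theorem rpow_le_exp {x : ℝ} (hx : 0 ≤ x) {m : ℝ} (hm : 0 < m) :
    x ^ (1 / m) ≤ Real.exp ((x - 1) / m) := by
  have h1 : x ≤ Real.exp (x - 1) := by
    have := Real.add_one_le_exp (x - 1)
    linarith
  calc x ^ (1 / m) ≤ (Real.exp (x - 1)) ^ (1 / m) :=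
        Real.rpow_le_rpow hx h1 (by positivity)
    _ = Real.exp ((x - 1) / m) := by
        rw [← Real.exp_mul]; ring_nf

theorem rpow_lt_exp {x : ℝ} (hx : 0 ≤ x) (hx1 : x ≠ 1) {m : ℝ} (hm : 0 < m) :
    x ^ (1 / m) < Real.exp ((x - 1) / m) := by
  have h1 : x < Real.exp (x - 1) := by
    have := Real.add_one_lt_exp (sub_ne_zero.2 hx1)
    linarith
  calc x ^ (1 / m) < (Real.exp (x - 1)) ^ (1 / m) :=
        Real.rpow_lt_rpow hx h1 (by positivity)
    _ = Real.exp ((x - 1) / m) := by
        rw [← Real.exp_mul]; ring_nf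

/-- The exponent of an edge. -/
noncomputable def cexp (W : Graphon) (q : ℝ) (e : Sym2 V) : ℝ :=
  (W.mom (mdeg H e) / q ^ mdeg H e - 1) / (mdeg H e : ℝ)

theorem fac_div (W : Graphon) {q : ℝ} (hq : 0 < q) {e : Sym2 V} (he : e ∈ H.edgeFinset) :
    W.mom (mdeg H e) ^ (1 / (mdeg H e : ℝ)) / q =
      (W.mom (mdeg H e) / q ^ mdeg H e) ^ (1 / (mdeg H e : ℝ)) := by
  have hm := mdeg_pos H he
  have hm' : (mdeg H e : ℝ) ≠ 0 := by exact_mod_cast hm.ne'
  rw [Real.div_rpow (W.mom_nonneg _) (by positivity)]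
  congr 1
  rw [← Real.rpow_natCast, ← Real.rpow_mul hq.le, mul_one_div_cancel hm', Real.rpow_one]

theorem one_le_prod (W : Graphon) {q : ℝ} (hq : 0 < q)
    (ht : q ^ H.edgeFinset.card ≤ homDensity H W) :
    1 ≤ ∏ e ∈ H.edgeFinset, (W.mom (mdeg H e) / q ^ mdeg H e) ^ (1 / (mdeg H e : ℝ)) := by
  calc (1 : ℝ) ≤ homDensity H W / q ^ H.edgeFinset.card := by
        rw [le_div_iff₀ (by positivity), one_mul]; exact ht
    _ ≤ (∏ e ∈ H.edgeFinset, W.mom (mdeg H e) ^ (1 / (mdeg H e : ℝ))) / q ^ H.edgeFinset.card := by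
        gcongr
        exact homDensity_le_holder H W
    _ = ∏ e ∈ H.edgeFinset, (W.mom (mdeg H e) ^ (1 / (mdeg H e : ℝ)) / q) := by
        rw [Finset.prod_div_distrib, Finset.prod_const]
    _ = ∏ e ∈ H.edgeFinset, (W.mom (mdeg H e) / q ^ mdeg H e) ^ (1 / (mdeg H e : ℝ)) := by
        apply Finset.prod_congr rfl
        intro e he
        exact fac_div H W hq he

theorem sum_cexp_nonneg (W : Graphon) {q : ℝ} (hq : 0 < q)
    (ht : q ^ H.edgeFinset.card ≤ homDensity H W) :
    0 ≤ ∑ e ∈ H.edgeFinset, cexp H W q e := by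
  have h1 : 1 ≤ Real.exp (∑ e ∈ H.edgeFinset, cexp H W q e) := by
    rw [Real.exp_sum]
    refine (one_le_prod H W hq ht).trans ?_
    apply Finset.prod_le_prod
    · intro e _
      exact Real.rpow_nonneg (div_nonneg (W.mom_nonneg _) (by positivity)) _
    · intro e he
      have hm : (0:ℝ) < mdeg H e := by exact_mod_cast mdeg_pos H he
      exact rpow_le_exp (div_nonneg (W.mom_nonneg _) (by positivity)) hm
  by_contra hlt
  push Not at hlt
  have := Real.exp_lt_exp.2 hlt
  rw [Real.exp_zero] at this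
  linarith

/-- If the sum of the exponents is not positive then all moments are those of the constant. -/
theorem moments_eq (W : Graphon) {q : ℝ} (hq : 0 < q)
    (ht : q ^ H.edgeFinset.card ≤ homDensity H W)
    (hs : ∑ e ∈ H.edgeFinset, cexp H W q e ≤ 0) :
    ∀ e ∈ H.edgeFinset, W.mom (mdeg H e) = q ^ mdeg H e := by
  intro e0 he0
  by_contra hne
  have hne1 : W.mom (mdeg H e0) / q ^ mdeg H e0 ≠ 1 := by
    intro h
    rw [div_eq_one_iff_eq (by positivity)] at h
    exact hne h
  have hge := one_le_prod H W hq ht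
  have hnn : ∀ e ∈ H.edgeFinset,
      0 ≤ (W.mom (mdeg H e) / q ^ mdeg H e) ^ (1 / (mdeg H e : ℝ)) := fun e _ =>
    Real.rpow_nonneg (div_nonneg (W.mom_nonneg _) (by positivity)) _
  have hpos : ∀ e ∈ H.edgeFinset,
      0 < (W.mom (mdeg H e) / q ^ mdeg H e) ^ (1 / (mdeg H e : ℝ)) := by
    intro e he
    rcases (hnn e he).eq_or_lt with h | h
    · exfalso
      rw [Finset.prod_eq_zero he h.symm] at hge
      linarith
    · exact h
  have hlt : ∏ e ∈ H.edgeFinset, (W.mom (mdeg H e) / q ^ mdeg H e) ^ (1 / (mdeg H e : ℝ)) <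
      ∏ e ∈ H.edgeFinset, Real.exp (cexp H W q e) := by
    apply Finset.prod_lt_prod hpos
    · intro e he
      have hm : (0:ℝ) < mdeg H e := by exact_mod_cast mdeg_pos H he
      exact rpow_le_exp (div_nonneg (W.mom_nonneg _) (by positivity)) hm
    · refine ⟨e0, he0, ?_⟩
      have hm : (0:ℝ) < mdeg H e0 := by exact_mod_cast mdeg_pos H he0
      exact rpow_lt_exp (div_nonneg (W.mom_nonneg _) (by positivity)) hne1 hm
  rw [← Real.exp_sum] at hlt
  have := Real.exp_le_exp.2 hs
  rw [Real.exp_zero] at this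
  linarith

/-- Two moments equal to those of the constant force the graphon to be constant. -/
theorem ae_eq_of_two_moments (W : Graphon) {q : ℝ} (hq : 0 < q) {k l : ℕ} (hk : 0 < k)
    (hkl : k < l) (h1 : W.mom k = q ^ k) (h2 : W.mom l = q ^ l) :
    ∀ᵐ z : unitInterval × unitInterval, W.W z.1 z.2 = q := by
  -- h(z) = z^l - 1 - (l/k)(z^k - 1)
  have hl : (0:ℝ) < l := by exact_mod_cast hk.trans hkl
  have hk' : (0:ℝ) < k := by exact_mod_cast hk
  have hp : (1:ℝ) < l / k := by
    rw [lt_div_iff₀ hk', one_mul]; exact_mod_cast hkl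
  have hpt : ∀ w : ℝ, 0 ≤ w → w ^ k ≠ 1 → 1 + (l / k : ℝ) * (w ^ k - 1) < w ^ l := by
    intro w hw hne
    have h := one_add_mul_self_lt_rpow_one_add (s := w ^ k - 1) (by
      have : 0 ≤ w ^ k := by positivity
      linarith) (sub_ne_zero.2 hne) hp
    have e1 : (1 + (w ^ k - 1)) ^ (l / k : ℝ) = w ^ l := by
      rw [show 1 + (w ^ k - 1) = w ^ k by ring, ← Real.rpow_natCast, ← Real.rpow_mul hw,
        mul_div_cancel₀ _ hk'.ne', Real.rpow_natCast]
    rw [e1] at h
    exact h
  have hpt' : ∀ w : ℝ, 0 ≤ w → 1 + (l / k : ℝ) * (w ^ k - 1) ≤ w ^ l := by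
    intro w hw
    by_cases hne : w ^ k = 1
    · have hw1 : w = 1 := by
        rwa [pow_eq_one_iff_of_nonneg hw hk.ne'] at hne
      subst hw1
      simp
    · exact (hpt w hw hne).le
  have il : Integrable (fun z : unitInterval × unitInterval => W.W z.1 z.2 ^ l * (1 / q ^ l)) :=
    (W.integrable_pow l).mul_const _
  have ik : Integrable (fun z : unitInterval × unitInterval => W.W z.1 z.2 ^ k * (-(l / k : ℝ) / q ^ k)) :=
    (W.integrable_pow k).mul_const _
  have ikc : Integrable (fun z : unitInterval × unitInterval => W.W z.1 z.2 ^ k * (-(l / k : ℝ) / q ^ k) +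
      ((l / k : ℝ) - 1)) := ik.add (integrable_const _)
  have hint : ∫ z : unitInterval × unitInterval, (W.W z.1 z.2 ^ l * (1 / q ^ l) +
      (W.W z.1 z.2 ^ k * (-(l / k : ℝ) / q ^ k) + ((l / k : ℝ) - 1))) = 0 := by
    rw [integral_add il ikc, integral_add ik (integrable_const _), integral_mul_const,
      integral_mul_const]
    have e1 : ∫ z : unitInterval × unitInterval, W.W z.1 z.2 ^ l = q ^ l := h2
    have e2 : ∫ z : unitInterval × unitInterval, W.W z.1 z.2 ^ k = q ^ k := h1
    rw [e1, e2]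
    simp only [integral_const, probReal_univ, smul_eq_mul, one_mul]
    field_simp
    ring
  have heq : ∀ z : unitInterval × unitInterval, (W.W z.1 z.2 ^ l * (1 / q ^ l) +
      (W.W z.1 z.2 ^ k * (-(l / k : ℝ) / q ^ k) + ((l / k : ℝ) - 1))) =
      (W.W z.1 z.2 / q) ^ l - (1 + (l / k : ℝ) * ((W.W z.1 z.2 / q) ^ k - 1)) := by
    intro z
    rw [div_pow, div_pow]
    ring
  have hnn : 0 ≤ fun z : unitInterval × unitInterval => (W.W z.1 z.2 ^ l * (1 / q ^ l) +
      (W.W z.1 z.2 ^ k * (-(l / k : ℝ) / q ^ k) + ((l / k : ℝ) - 1))) := by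
    intro z
    simp only [Pi.zero_apply]
    rw [heq]
    have := hpt' (W.W z.1 z.2 / q) (div_nonneg (W.nonneg _ _) hq.le)
    linarith
  have h0 := (integral_eq_zero_iff_of_nonneg hnn (il.add ikc)).1 hint
  filter_upwards [h0] with z hz
  simp only [Pi.zero_apply] at hz
  rw [heq] at hz
  by_contra hne
  have h3 : (W.W z.1 z.2 / q) ^ k ≠ 1 := by
    intro h
    rw [pow_eq_one_iff_of_nonneg (div_nonneg (W.nonneg _ _) hq.le) hk.ne'] at h
    rw [div_eq_one_iff_eq hq.ne'] at h
    exact hne h
  have := hpt (W.W z.1 z.2 / q) (div_nonneg (W.nonneg _ _) hq.le) h3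
  linarith

theorem measurable_relEnt (p : ℝ) : Measurable (relEnt p) := by
  unfold relEnt
  have h1 : Measurable fun x : ℝ => x := measurable_id
  exact (h1.mul (h1.div_const p).log).add
    ((h1.const_sub 1).mul ((h1.const_sub 1).div_const (1 - p)).log)

theorem integrable_relEnt {p : ℝ} (hp : 0 < p) (hp1 : p < 1) (W : Graphon) :
    Integrable (fun z : unitInterval × unitInterval => relEnt p (W.W z.1 z.2)) := by
  have : (fun z : unitInterval × unitInterval => relEnt p (W.W z.1 z.2)) = fun z : unitInterval × unitInterval =>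
      (g (2 * W.W z.1 z.2 - 1) +
      (W.W z.1 z.2 * (Real.log (1 - p) - Real.log p) + (- Real.log 2 - Real.log (1 - p)))) := by
    ext z
    rw [relEnt_eq hp hp1 (W.nonneg _ _) (W.le_one _ _)]
    ring
  rw [this]
  exact W.integrable_g.add ((W.integrable_W.mul_const _).add (integrable_const _))

/-- The integrated form of the sufficient condition. -/
theorem cost_ge_of_pointwise {p q L' : ℝ} (hp : 0 < p) (hp1 : p < 1)
    (h : ∀ r : ℝ, 0 ≤ r → r ≤ 1 →
      L' * ∑ e ∈ H.edgeFinset, ((r / q) ^ mdeg H e - 1) / (mdeg H e : ℝ) ≤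
        relEnt p r - relEnt p q)
    (W : Graphon) :
    L' * ∑ e ∈ H.edgeFinset, cexp H W q e ≤ cost p W - relEnt p q := by
  have ie : ∀ e ∈ H.edgeFinset, Integrable (fun z : unitInterval × unitInterval =>
      ((W.W z.1 z.2 / q) ^ mdeg H e - 1) / (mdeg H e : ℝ)) := by
    intro e _
    have : (fun z : unitInterval × unitInterval => ((W.W z.1 z.2 / q) ^ mdeg H e - 1) / (mdeg H e : ℝ)) =
        fun z : unitInterval × unitInterval => W.W z.1 z.2 ^ mdeg H e * (1 / q ^ mdeg H e / (mdeg H e : ℝ)) +
          (- 1 / (mdeg H e : ℝ)) := by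
      ext z
      rw [div_pow]
      ring
    rw [this]
    exact ((W.integrable_pow _).mul_const _).add (integrable_const _)
  have is : Integrable (fun z : unitInterval × unitInterval => L' * ∑ e ∈ H.edgeFinset,
      ((W.W z.1 z.2 / q) ^ mdeg H e - 1) / (mdeg H e : ℝ)) :=
    (integrable_finsetSum _ ie).const_mul _
  have h1 : ∫ z : unitInterval × unitInterval, L' * ∑ e ∈ H.edgeFinset,
      ((W.W z.1 z.2 / q) ^ mdeg H e - 1) / (mdeg H e : ℝ) ≤
      ∫ z : unitInterval × unitInterval, (relEnt p (W.W z.1 z.2) - relEnt p q) := by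
    apply integral_mono is ((integrable_relEnt hp hp1 W).sub (integrable_const _))
    intro z
    exact h _ (W.nonneg _ _) (W.le_one _ _)
  rw [integral_sub (integrable_relEnt hp hp1 W) (integrable_const _), integral_const_mul,
    integral_finsetSum _ ie] at h1
  simp only [integral_const, probReal_univ, smul_eq_mul, one_mul] at h1
  have h2 : ∀ e ∈ H.edgeFinset, ∫ z : unitInterval × unitInterval, ((W.W z.1 z.2 / q) ^ mdeg H e - 1) /
      (mdeg H e : ℝ) = cexp H W q e := by
    intro e _
    have : (fun z : unitInterval × unitInterval => ((W.W z.1 z.2 / q) ^ mdeg H e - 1) / (mdeg H e : ℝ)) =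
        fun z : unitInterval × unitInterval => W.W z.1 z.2 ^ mdeg H e * (1 / q ^ mdeg H e / (mdeg H e : ℝ)) +
          (- 1 / (mdeg H e : ℝ)) := by
      ext z
      rw [div_pow]
      ring
    rw [this, integral_add ((W.integrable_pow _).mul_const _) (integrable_const _),
      integral_mul_const]
    simp only [integral_const, probReal_univ, smul_eq_mul, one_mul]
    unfold cexp
    have e1 : ∫ z : unitInterval × unitInterval, W.W z.1 z.2 ^ mdeg H e = W.mom (mdeg H e) := rfl
    rw [e1]
    ring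
  rw [Finset.sum_congr rfl h2] at h1
  exact h1

theorem logit_mono {p q : ℝ} (hp : 0 < p) (hpq : p ≤ q) (hq1 : q < 1) :
    0 ≤ logit q - logit p := by
  unfold logit
  have h1 : Real.log p ≤ Real.log q := Real.log_le_log hp hpq
  have h2 : Real.log (1 - q) ≤ Real.log (1 - p) := Real.log_le_log (by linarith) (by linarith)
  linarith

theorem logit_strictMono {p q : ℝ} (hp : 0 < p) (hpq : p < q) (hq1 : q < 1) :
    0 < logit q - logit p := by
  unfold logit
  have h1 : Real.log p < Real.log q := Real.log_lt_log hp hpq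
  have h2 : Real.log (1 - q) < Real.log (1 - p) := Real.log_lt_log (by linarith) (by linarith)
  linarith

/-- A sufficient condition for replica symmetry, for every graph. -/
theorem suff_general (hE : 0 < H.edgeFinset.card) {p q : ℝ} (hp : 0 < p) (hpq : p ≤ q)
    (hq1 : q < 1)
    (h : ∀ r : ℝ, 0 ≤ r → r ≤ 1 →
      (q * (logit q - logit p) / H.edgeFinset.card) *
        ∑ e ∈ H.edgeFinset, ((r / q) ^ mdeg H e - 1) / (mdeg H e : ℝ) ≤
        relEnt p r - relEnt p q) :
    ReplicaSymmetric H p q ∧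
      ((∃ e ∈ H.edgeFinset, ∃ e' ∈ H.edgeFinset, mdeg H e ≠ mdeg H e') →
        UniqueMinimizer H p q) := by
  have hq : 0 < q := lt_of_lt_of_le hp hpq
  have hp1 : p < 1 := lt_of_le_of_lt hpq hq1
  have hE' : (0:ℝ) < H.edgeFinset.card := by exact_mod_cast hE
  have hL := logit_mono hp hpq hq1
  constructor
  · rw [replicaSymmetric_iff H hp hpq hq1]
    intro W hW
    have h1 := cost_ge_of_pointwise H hp hp1 h W
    have h2 := sum_cexp_nonneg H W hq hW
    have h3 : 0 ≤ (q * (logit q - logit p) / H.edgeFinset.card) *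
        ∑ e ∈ H.edgeFinset, cexp H W q e := mul_nonneg (by positivity) h2
    linarith
  · rintro ⟨e, he, e', he', hne⟩ W hW hc
    rcases hpq.eq_or_lt with rfl | hlt
    · -- p = q
      have e2 : relEnt p p = 0 := by
        unfold relEnt
        rw [div_self hp.ne', div_self (by linarith)]
        simp
      rw [e2] at hc
      have h0 : cost p W = 0 := le_antisymm hc (cost_nonneg hp hp1 W)
      have h1 := (integral_eq_zero_iff_of_nonneg (μ := (volume : Measure (unitInterval × unitInterval)))
        (f := fun z : unitInterval × unitInterval => relEnt p (W.W z.1 z.2))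
        (fun z => relEnt_nonneg hp hp1 (W.nonneg _ _) (W.le_one _ _))
        (integrable_relEnt hp hp1 W)).1 h0
      filter_upwards [h1] with z hz
      simp only [Pi.zero_apply] at hz
      have h2 := relEnt_ge hp hp1 (W.nonneg z.1 z.2) (W.le_one z.1 z.2)
      rw [hz] at h2
      by_contra hcon
      have : 0 < (W.W z.1 z.2 - p) ^ 2 := by
        have := sub_ne_zero.2 hcon
        positivity
      have := mul_pos (kq_pos hp hp1) this
      linarith
    · have hL' := logit_strictMono hp hlt hq1
      have h1 := cost_ge_of_pointwise H hp hp1 h W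
      have h3 : ∑ e ∈ H.edgeFinset, cexp H W q e ≤ 0 := by
        by_contra hcon
        push Not at hcon
        have : 0 < (q * (logit q - logit p) / H.edgeFinset.card) *
          ∑ e ∈ H.edgeFinset, cexp H W q e := mul_pos (by positivity) hcon
        linarith
      have hm := moments_eq H W hq hW h3
      rcases lt_or_gt_of_ne hne with hlt' | hlt'
      · exact ae_eq_of_two_moments W hq (mdeg_pos H he) hlt' (hm e he) (hm e' he')
      · exact ae_eq_of_two_moments W hq (mdeg_pos H he') hlt' (hm e' he') (hm e he)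

theorem sum_mdeg_eq (hreg : ∀ i j, H.Adj i j → H.degree i = H.degree j) (x : ℝ) :
    ∑ e ∈ H.edgeFinset, (x ^ mdeg H e - 1) / (mdeg H e : ℝ) =
      (1 / 2) * ∑ v, (x ^ H.degree v - 1) := by
  have h := sum_edge_sum H (fun v => (x ^ H.degree v - 1) / (2 * H.degree v))
  have h1 : ∀ v, (H.degree v : ℝ) * ((x ^ H.degree v - 1) / (2 * H.degree v)) =
      (1 / 2) * (x ^ H.degree v - 1) := by
    intro v
    by_cases h0 : H.degree v = 0
    · rw [h0]; simp
    · have : (H.degree v : ℝ) ≠ 0 := by exact_mod_cast h0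
      field_simp
  rw [Finset.sum_congr rfl fun v _ => h1 v, ← Finset.mul_sum] at h
  rw [← h]
  apply Finset.sum_congr rfl
  intro e
  induction e using Sym2.ind with
  | _ i j =>
    intro he
    have hadj : H.Adj i j := by simpa using he
    rw [sum_mem_mk hadj.ne, mdeg_mk, ← hreg i j hadj, max_self]
    ring

/-- Necessity of the vertex condition, for every graph. -/
theorem necessary (hE : 0 < H.edgeFinset.card) {p q : ℝ} (hp : 0 < p) (hpq : p ≤ q)
    (hq1 : q < 1) (h : ReplicaSymmetric H p q) :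
    ∀ r : ℝ, 0 ≤ r → r ≤ 1 →
      (q * (logit q - logit p) / (2 * H.edgeFinset.card)) * ∑ v, ((r / q) ^ H.degree v - 1) ≤
        relEnt p r - relEnt p q := by
  intro r hr hr1
  by_contra hcon
  push Not at hcon
  obtain ⟨W, hW, hW2⟩ := hub_breaks H hE hp hpq hq1 hr hr1 hcon
  rw [replicaSymmetric_iff H hp hpq hq1] at h
  exact absurd (h W hW) (not_le.2 hW2)

end Pool.Agent.W_MP_bbc525_pr
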