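import Pool.Agent.W_MP_bbc525_pr.Linear
import Pool.Agent.W_MP_bbc525_pr.Core

/-!
# Sufficiency for graphs of maximum degree at most two
-/

namespace Pool.Agent.W_MP_bbc525_pr

open MeasureTheory Finset


/-- `logit p = log p - log (1 - p)`. -/
noncomputable def logit (p : ℝ) : ℝ := Real.log p - Real.log (1 - p)

theorem g_neg (t : ℝ) : g (-t) = g t := by
  unfold g
  rw [show 1 + -t = 1 - t by ring, show 1 - -t = 1 + t by ring]
  ring

theorem g_abs (t : ℝ) : g |t| = g t := by
  rcases abs_cases t with h | h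
  · rw [h.1]
  · rw [h.1, g_neg]

theorem relEnt_eq {p w : ℝ} (hp : 0 < p) (hp1 : p < 1) (hw : 0 ≤ w) (hw1 : w ≤ 1) :
    relEnt p w = g (2 * w - 1) - Real.log 2 - w * Real.log p - (1 - w) * Real.log (1 - p) := by
  have hp1' : 0 < 1 - p := by linarith
  unfold relEnt g
  rcases hw.eq_or_lt with rfl | hw0
  · norm_num
  rcases hw1.eq_or_lt with rfl | hw1'
  · norm_num
  have h1 : 0 < 1 - w := by linarith
  rw [Real.log_div hw0.ne' hp.ne', Real.log_div h1.ne' hp1'.ne']
  have e1 : Real.log (1 + (2 * w - 1)) = Real.log 2 + Real.log w := by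
    rw [← Real.log_mul (by norm_num) hw0.ne']; ring_nf
  have e2 : Real.log (1 - (2 * w - 1)) = Real.log 2 + Real.log (1 - w) := by
    rw [← Real.log_mul (by norm_num) h1.ne']; ring_nf
  rw [e1, e2]
  ring

/-- `κ(q)` -/
noncomputable def kq (q : ℝ) : ℝ := kap |1 - 2 * q|

theorem abs_lt_one {q : ℝ} (hq : 0 < q) (hq1 : q < 1) : |1 - 2 * q| < 1 := by
  rw [abs_lt]; constructor <;> linarith

theorem kq_ge {q : ℝ} (hq : 0 < q) (hq1 : q < 1) : 2 + 2 * (1 - 2 * q) ^ 2 / 3 ≤ kq q := by
  have := kap_ge (abs_nonneg (1 - 2 * q)) (abs_lt_one hq hq1)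
  rw [sq_abs] at this
  exact this

theorem kq_pos {q : ℝ} (hq : 0 < q) (hq1 : q < 1) : 0 < kq q :=
  kap_pos (abs_nonneg (1 - 2 * q)) (abs_lt_one hq hq1)

theorem kq_mul {q : ℝ} (hq : 0 < q) (hq1 : q < 1) : kq q * (1 - 2 * q) = - logit q := by
  have h1 : (0:ℝ) < 1 - q := by linarith
  have e1 : Real.log (2 * (1 - q)) = Real.log 2 + Real.log (1 - q) :=
    Real.log_mul (by norm_num) h1.ne'
  have e2 : Real.log (2 * q) = Real.log 2 + Real.log q :=
    Real.log_mul (by norm_num) hq.ne'
  unfold kq kap logit X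
  rcases lt_trichotomy (1 - 2 * q) 0 with h | h | h
  · rw [abs_of_neg h, if_neg (by linarith)]
    rw [show 1 + -(1 - 2 * q) = 2 * q by ring, show 1 - -(1 - 2 * q) = 2 * (1 - q) by ring, e1, e2]
    have : (1 - 2 * q) ≠ 0 := h.ne
    rw [div_mul_eq_mul_div, div_eq_iff (neg_ne_zero.2 this)]
    ring
  · have : q = 1 / 2 := by linarith
    subst this
    norm_num
  · rw [abs_of_pos h, if_neg h.ne']
    rw [show 1 + (1 - 2 * q) = 2 * (1 - q) by ring, show 1 - (1 - 2 * q) = 2 * q by ring, e1, e2]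
    have : (1 - 2 * q) ≠ 0 := h.ne'
    rw [div_mul_eq_mul_div, div_eq_iff this]
    ring

/-- The Kearns-Saul inequality in the form `D(w ‖ q) ≥ κ(q) (w - q)²`, stated through `g`. -/
theorem g_tangent {q w : ℝ} (hq : 0 < q) (hq1 : q < 1) (hw : 0 ≤ w) (hw1 : w ≤ 1) :
    g (2 * q - 1) - (w - q) * (kq q * (1 - 2 * q)) + kq q * (w - q) ^ 2 ≤ g (2 * w - 1) := by
  have h1 : |2 * w - 1| ≤ 1 := by rw [abs_le]; constructor <;> linarith
  have h := tangent (abs_nonneg (1 - 2 * q)) (abs_lt_one hq hq1) (abs_nonneg (2 * w - 1)) h1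
  rw [g_abs, g_abs, sq_abs, sq_abs] at h
  have e : g (1 - 2 * q) = g (2 * q - 1) := by rw [← g_neg]; ring_nf
  rw [e] at h
  unfold kq at *
  nlinarith

theorem relEnt_ge {p w : ℝ} (hp : 0 < p) (hp1 : p < 1) (hw : 0 ≤ w) (hw1 : w ≤ 1) :
    kq p * (w - p) ^ 2 ≤ relEnt p w := by
  have h := g_tangent hp hp1 hw hw1
  have e0 := relEnt_eq hp hp1 hw hw1
  have e1 := relEnt_eq hp hp1 hp.le hp1.le
  have e2 : relEnt p p = 0 := by
    unfold relEnt
    rw [div_self hp.ne', div_self (by linarith)]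
    simp
  rw [e2] at e1
  have hk := kq_mul hp hp1
  unfold logit at hk
  rw [e0]
  nlinarith

theorem relEnt_nonneg {p w : ℝ} (hp : 0 < p) (hp1 : p < 1) (hw : 0 ≤ w) (hw1 : w ≤ 1) :
    0 ≤ relEnt p w :=
  le_trans (mul_nonneg (kq_pos hp hp1).le (sq_nonneg _)) (relEnt_ge hp hp1 hw hw1)

section Cost

variable (W : Graphon)

/-- `∫∫ g(2W-1)`. -/
noncomputable def Graphon.gbar : ℝ := ∫ z : unitInterval × unitInterval, g (2 * W.W z.1 z.2 - 1)

theorem g_bdd : ∃ C : ℝ, ∀ w : ℝ, 0 ≤ w → w ≤ 1 → |g (2 * w - 1)| ≤ C := by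
  have hc : Continuous fun w : ℝ => g (2 * w - 1) := continuous_g.comp (by fun_prop)
  obtain ⟨C, hC⟩ := (isCompact_Icc (a := (0:ℝ)) (b := 1)).exists_bound_of_continuousOn
    hc.continuousOn
  exact ⟨C, fun w h1 h2 => hC w ⟨h1, h2⟩⟩

theorem Graphon.integrable_g : Integrable (fun z : unitInterval × unitInterval => g (2 * W.W z.1 z.2 - 1)) := by
  obtain ⟨C, hC⟩ := g_bdd
  have hm : Measurable (fun z : unitInterval × unitInterval => g (2 * W.W z.1 z.2 - 1)) :=
    continuous_g.measurable.comp ((W.measurable_prod.const_mul 2).sub_const 1)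
  exact Graphon.integrable_of_bdd hm (C := C) fun z => hC _ (W.nonneg _ _) (W.le_one _ _)

theorem cost_eq {p : ℝ} (hp : 0 < p) (hp1 : p < 1) :
    cost p W = W.gbar - Real.log 2 - W.mean * Real.log p - (1 - W.mean) * Real.log (1 - p) := by
  have h1 : cost p W = ∫ z : unitInterval × unitInterval, (g (2 * W.W z.1 z.2 - 1) +
      (W.W z.1 z.2 * (Real.log (1 - p) - Real.log p) + (- Real.log 2 - Real.log (1 - p)))) := by
    unfold cost
    congr 1
    ext z
    rw [relEnt_eq hp hp1 (W.nonneg _ _) (W.le_one _ _)]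
    ring
  have i2 : Integrable (fun z : unitInterval × unitInterval => W.W z.1 z.2 * (Real.log (1 - p) - Real.log p)) :=
    W.integrable_W.mul_const _
  have i3 : Integrable (fun z : unitInterval × unitInterval => W.W z.1 z.2 * (Real.log (1 - p) - Real.log p) +
      (- Real.log 2 - Real.log (1 - p))) := i2.add (integrable_const _)
  rw [h1, integral_add W.integrable_g i3, integral_add i2 (integrable_const _),
    integral_mul_const]
  simp only [integral_const, probReal_univ, smul_eq_mul, one_mul, Graphon.gbar, Graphon.mean]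
  ring

/-- The difference of the costs. -/
theorem cost_sub {p q : ℝ} (hp : 0 < p) (hp1 : p < 1) (hq : 0 < q) (hq1 : q < 1) :
    cost p W - relEnt p q = W.gbar - g (2 * q - 1) +
      (W.mean - q) * ((logit q - logit p) + kq q * (1 - 2 * q)) := by
  rw [cost_eq W hp hp1, relEnt_eq hp hp1 hq.le hq1.le, kq_mul hq hq1]
  unfold logit
  ring

theorem gbar_ge_tangent {q : ℝ} (hq : 0 < q) (hq1 : q < 1) :
    g (2 * q - 1) - (W.mean - q) * (kq q * (1 - 2 * q)) +
      kq q * ∫ z : unitInterval × unitInterval, (W.W z.1 z.2 - q) ^ 2 ≤ W.gbar := by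
  have i1 : Integrable (fun z : unitInterval × unitInterval => (W.W z.1 z.2 - q) ^ 2) := by
    refine Graphon.integrable_of_bdd ((W.measurable_prod.sub_const q).pow_const 2) (C := 1)
      fun z => ?_
    rw [abs_pow]
    apply pow_le_one₀ (abs_nonneg _)
    rw [abs_le]
    have := W.nonneg z.1 z.2
    have := W.le_one z.1 z.2
    constructor <;> linarith
  have i2 : Integrable (fun z : unitInterval × unitInterval => W.W z.1 z.2 * (- (kq q * (1 - 2 * q)))) :=
    W.integrable_W.mul_const _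
  have i3 : Integrable (fun z : unitInterval × unitInterval => kq q * (W.W z.1 z.2 - q) ^ 2) := i1.const_mul _
  have i4 : Integrable (fun z : unitInterval × unitInterval => W.W z.1 z.2 * (- (kq q * (1 - 2 * q))) +
      kq q * (W.W z.1 z.2 - q) ^ 2) := i2.add i3
  have h : ∫ z : unitInterval × unitInterval, ((W.W z.1 z.2 * (- (kq q * (1 - 2 * q))) +
      kq q * (W.W z.1 z.2 - q) ^ 2) + (g (2 * q - 1) + q * (kq q * (1 - 2 * q)))) ≤ W.gbar := by
    apply integral_mono (i4.add (integrable_const _)) W.integrable_g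
    intro z
    have := g_tangent hq hq1 (W.nonneg z.1 z.2) (W.le_one z.1 z.2)
    simp only [Pi.add_apply]
    linarith
  rw [integral_add i4 (integrable_const _), integral_add i2 i3, integral_mul_const,
    integral_const_mul] at h
  simp only [integral_const, probReal_univ, smul_eq_mul, one_mul] at h
  have e : ∫ z : unitInterval × unitInterval, W.W z.1 z.2 = W.mean := rfl
  rw [e] at h
  linarith

/-- Jensen's inequality: `∫∫ g(2W-1) ≥ g(T)` with `T² = ∫∫ (2W-1)²`. -/
theorem gbar_ge_jensen {T : ℝ} (hT0 : 0 ≤ T) (hT : T ^ 2 = 4 * W.mom 2 - 4 * W.mean + 1) :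
    g T ≤ W.gbar := by
  have i1 : Integrable (fun z : unitInterval × unitInterval => W.W z.1 z.2 ^ 2) := W.integrable_pow 2
  have i2 : Integrable (fun z : unitInterval × unitInterval => 4 * W.W z.1 z.2 ^ 2) := i1.const_mul 4
  have i3 : Integrable (fun z : unitInterval × unitInterval => (-4) * W.W z.1 z.2) := W.integrable_W.const_mul (-4)
  have i4 : Integrable (fun z : unitInterval × unitInterval => 4 * W.W z.1 z.2 ^ 2 + (-4) * W.W z.1 z.2) := i2.add i3
  have i5 : Integrable (fun z : unitInterval × unitInterval => (2 * W.W z.1 z.2 - 1) ^ 2) := by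
    have : (fun z : unitInterval × unitInterval => (2 * W.W z.1 z.2 - 1) ^ 2) =
        fun z : unitInterval × unitInterval => (4 * W.W z.1 z.2 ^ 2 + (-4) * W.W z.1 z.2) + 1 := by
      ext z; ring
    rw [this]
    exact i4.add (integrable_const 1)
  have hY : ∫ z : unitInterval × unitInterval, (2 * W.W z.1 z.2 - 1) ^ 2 = T ^ 2 := by
    have : (fun z : unitInterval × unitInterval => (2 * W.W z.1 z.2 - 1) ^ 2) =
        fun z : unitInterval × unitInterval => (4 * W.W z.1 z.2 ^ 2 + (-4) * W.W z.1 z.2) + 1 := by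
      ext z; ring
    rw [this, integral_add i4 (integrable_const 1), integral_add i2 i3, integral_const_mul,
      integral_const_mul]
    simp only [integral_const, probReal_univ, smul_eq_mul, one_mul]
    have e : ∫ z : unitInterval × unitInterval, W.W z.1 z.2 = W.mean := rfl
    have e1 : ∫ z : unitInterval × unitInterval, W.W z.1 z.2 ^ 2 = W.mom 2 := rfl
    rw [e, e1, hT]
    ring
  have hle : ∀ z : unitInterval × unitInterval, |2 * W.W z.1 z.2 - 1| ≤ 1 := fun z => by
    rw [abs_le]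
    have := W.nonneg z.1 z.2
    have := W.le_one z.1 z.2
    constructor <;> linarith
  have hle2 : ∀ z : unitInterval × unitInterval, (2 * W.W z.1 z.2 - 1) ^ 2 ≤ 1 := fun z => by
    rw [← sq_abs]
    exact pow_le_one₀ (abs_nonneg _) (hle z)
  have hT1 : T ≤ 1 := by
    have : T ^ 2 ≤ 1 := by
      rw [← hY]
      have : ∫ z : unitInterval × unitInterval, (2 * W.W z.1 z.2 - 1) ^ 2 ≤ ∫ _ : unitInterval × unitInterval, (1:ℝ) :=
        integral_mono i5 (integrable_const 1) hle2
      simpa using this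
    nlinarith
  rcases hT1.eq_or_lt with hT1' | hT1'
  · -- T = 1
    have hae : ∀ᵐ z : unitInterval × unitInterval, (2 * W.W z.1 z.2 - 1) ^ 2 = 1 := by
      have h0 : ∫ z : unitInterval × unitInterval, (1 - (2 * W.W z.1 z.2 - 1) ^ 2) = 0 := by
        rw [integral_sub (integrable_const 1) i5, hY, hT1']
        simp
      have i6 : Integrable (fun z : unitInterval × unitInterval => 1 - (2 * W.W z.1 z.2 - 1) ^ 2) :=
        (integrable_const 1).sub i5
      have h1 := (integral_eq_zero_iff_of_nonneg (μ := (volume : Measure (unitInterval × unitInterval)))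
        (f := fun z : unitInterval × unitInterval => 1 - (2 * W.W z.1 z.2 - 1) ^ 2)
        (fun z => by
          have := hle2 z
          simp only [Pi.zero_apply]
          linarith) i6).1 h0
      filter_upwards [h1] with z hz
      simp only [Pi.zero_apply] at hz
      linarith
    have : W.gbar = ∫ z : unitInterval × unitInterval, g T := by
      unfold Graphon.gbar
      apply integral_congr_ae
      filter_upwards [hae] with z hz
      have h2 : |2 * W.W z.1 z.2 - 1| = 1 := by
        have : |2 * W.W z.1 z.2 - 1| ^ 2 = 1 := by rw [sq_abs]; exact hz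
        have h3 := abs_nonneg (2 * W.W z.1 z.2 - 1)
        nlinarith
      rw [← g_abs, h2, hT1']
    rw [this]
    simp
  · have h : ∫ z : unitInterval × unitInterval, (kap T / 4 * (2 * W.W z.1 z.2 - 1) ^ 2 + (g T - kap T * T ^ 2 / 4)) ≤
        W.gbar := by
      apply integral_mono ((i5.const_mul _).add (integrable_const _)) W.integrable_g
      intro z
      have := tangent hT0 hT1' (abs_nonneg (2 * W.W z.1 z.2 - 1)) (hle z)
      rw [g_abs, sq_abs] at this
      simp only [Pi.add_apply]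
      linarith
    rw [integral_add (i5.const_mul _) (integrable_const _), integral_const_mul, hY] at h
    simp only [integral_const, probReal_univ, smul_eq_mul, one_mul] at h
    linarith

/-- If `a ≥ q` then the cost is at least the cost of the constant graphon. -/
theorem cost_ge_of_mean_ge {p q : ℝ} (hp : 0 < p) (hpq : p ≤ q) (hq1 : q < 1)
    (ha : q ≤ W.mean) :
    kq q * ∫ z : unitInterval × unitInterval, (W.W z.1 z.2 - q) ^ 2 ≤ cost p W - relEnt p q := by
  have hq : 0 < q := lt_of_lt_of_le hp hpq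
  have hp1 : p < 1 := lt_of_le_of_lt hpq hq1
  rw [cost_sub W hp hp1 hq hq1]
  have h := gbar_ge_tangent W hq hq1
  have hL : 0 ≤ logit q - logit p := by
    unfold logit
    have h1 : Real.log p ≤ Real.log q := Real.log_le_log hp hpq
    have h2 : Real.log (1 - q) ≤ Real.log (1 - p) := Real.log_le_log (by linarith) (by linarith)
    linarith
  nlinarith [mul_nonneg (sub_nonneg.2 ha) hL]

theorem ae_eq_of_int_sq {q : ℝ} (hq : 0 < q) (hq1 : q < 1)
    (h : ∫ z : unitInterval × unitInterval, (W.W z.1 z.2 - q) ^ 2 ≤ 0) :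
    ∀ᵐ z : unitInterval × unitInterval, W.W z.1 z.2 = q := by
  have i1 : Integrable (fun z : unitInterval × unitInterval => (W.W z.1 z.2 - q) ^ 2) := by
    refine Graphon.integrable_of_bdd ((W.measurable_prod.sub_const q).pow_const 2) (C := 1)
      fun z => ?_
    rw [abs_pow]
    apply pow_le_one₀ (abs_nonneg _)
    rw [abs_le]
    have := W.nonneg z.1 z.2
    have := W.le_one z.1 z.2
    constructor <;> linarith
  have h0 : ∫ z : unitInterval × unitInterval, (W.W z.1 z.2 - q) ^ 2 = 0 :=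
    le_antisymm h (integral_nonneg fun _ => sq_nonneg _)
  have h1 := (integral_eq_zero_iff_of_nonneg (μ := (volume : Measure (unitInterval × unitInterval)))
    (fun z => sq_nonneg _) i1).1 h0
  filter_upwards [h1] with z hz
  simp only [Pi.zero_apply, sq_eq_zero_iff] at hz
  linarith

end Cost

/-- The numerical inequality behind the case `a < q`. -/
theorem numeric {q κ ν u b Δ Y2 : ℝ} (hq : 0 < q) (hq1 : q < 1) (hb : 0 < b) (hbq : b ≤ q)
    (hκ : 2 + 2 * (1 - 2 * q) ^ 2 / 3 ≤ κ) (hu0 : 0 ≤ u) (hu2 : u ≤ 2) (huν : u ≤ ν)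
    (hY : b * (1 + ν * q) - u / 2 * b ^ 2 ≤ Y2) (hΔ : 0 < Δ)
    (hcore : κ * Y2 + κ / 6 * Δ ^ 2 ≤ Δ) : b * (κ * (1 + ν * q)) < Δ := by
  have hκ0 : 0 < κ := by nlinarith [sq_nonneg (1 - 2 * q)]
  have hν0 : 0 ≤ ν := hu0.trans huν
  set m := 1 + ν * q with hm
  have hm1 : 1 ≤ m := by
    have : 0 ≤ ν * q := by positivity
    linarith
  have hmu : 1 + u * q ≤ m := by
    have : u * q ≤ ν * q := mul_le_mul_of_nonneg_right huν hq.le
    linarith
  -- (v) 3 u < κ² m²
  have hκ2 : 4 + 8 / 3 * (1 - 2 * q) ^ 2 ≤ κ ^ 2 := by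
    nlinarith [sq_nonneg (1 - 2 * q), sq_nonneg ((1 - 2 * q) ^ 2)]
  have h6 : 6 < (4 + 8 / 3 * (1 - 2 * q) ^ 2) * (1 + 4 * q) := by
    nlinarith [mul_pos hq hq, mul_pos (mul_pos hq hq) hq, mul_nonneg hq.le (sq_nonneg (1 - 2 * q)),
      mul_nonneg hq.le (sq_nonneg q), mul_nonneg hq.le (sq_nonneg (1 - q))]
  have h6' : 6 < κ ^ 2 * (1 + 4 * q) := by
    have : (4 + 8 / 3 * (1 - 2 * q) ^ 2) * (1 + 4 * q) ≤ κ ^ 2 * (1 + 4 * q) :=
      mul_le_mul_of_nonneg_right hκ2 (by linarith)
    linarith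
  have h3u : 3 * u < κ ^ 2 * (1 + 2 * u * q) := by
    have hκsq : 0 < κ ^ 2 := by positivity
    have e : κ ^ 2 * (1 + 2 * u * q) - 3 * u =
        (1 - u / 2) * κ ^ 2 + u / 2 * (κ ^ 2 * (1 + 4 * q) - 6) := by ring
    have hA : 0 ≤ (1 - u / 2) * κ ^ 2 := mul_nonneg (by linarith) hκsq.le
    rcases hu0.eq_or_lt with h0 | h0
    · rw [← h0]; simpa using hκsq
    · have hB : 0 < u / 2 * (κ ^ 2 * (1 + 4 * q) - 6) := mul_pos (by linarith) (by linarith)
      linarith
  have h3 : 3 * u < κ ^ 2 * m ^ 2 := by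
    have : 1 + 2 * u * q ≤ m ^ 2 := by nlinarith [sq_nonneg (u * q), mul_nonneg hu0 hq.le]
    have := mul_le_mul_of_nonneg_left this (sq_nonneg κ)
    linarith
  by_contra hcon
  push Not at hcon
  -- hcon : Δ ≤ b * (κ * m)
  have hκY : κ * (b * m - u / 2 * b ^ 2) + κ / 6 * Δ ^ 2 ≤ Δ := by
    have := mul_le_mul_of_nonneg_left hY hκ0.le
    linarith
  -- multiply: let x = b κ m
  set x := b * (κ * m) with hx
  have hxpos : 0 < x := by positivity
  have hub : u * b < m := by
    have : u * b ≤ u * q := mul_le_mul_of_nonneg_left hbq hu0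
    linarith
  -- C' = u / (2 κ m²);  κ u/2 b² = C' x²
  have h1 : x - Δ + κ / 6 * Δ ^ 2 ≤ κ * u / 2 * b ^ 2 := by nlinarith
  -- κ/6 > C'
  -- (x - Δ) < C' (x² - Δ²) = C' (x-Δ)(x+Δ) ≤ C' (x - Δ) 2 x = (x - Δ) u b / m ≤ x - Δ
  have hm0 : 0 < m := by linarith
  have hC : u / (2 * κ * m ^ 2) < κ / 6 := by
    rw [div_lt_div_iff₀ (by positivity) (by norm_num)]
    nlinarith
  set C := u / (2 * κ * m ^ 2) with hCdef
  have hC0 : 0 ≤ C := by positivity
  have hCx : C * x ^ 2 = κ * u / 2 * b ^ 2 := by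
    rw [hCdef, hx]
    field_simp
  have hCx2 : C * (2 * x) = u * b / m := by
    rw [hCdef, hx]
    field_simp
  have h2 : x - Δ < C * (x ^ 2 - Δ ^ 2) := by
    have : C * Δ ^ 2 < κ / 6 * Δ ^ 2 := mul_lt_mul_of_pos_right hC (by positivity)
    linarith
  have h4 : C * (x ^ 2 - Δ ^ 2) ≤ (x - Δ) * (C * (2 * x)) := by
    have : x ^ 2 - Δ ^ 2 = (x - Δ) * (x + Δ) := by ring
    rw [this]
    have h5 : 0 ≤ x - Δ := by linarith
    have : (x - Δ) * (x + Δ) ≤ (x - Δ) * (2 * x) := mul_le_mul_of_nonneg_left (by linarith) h5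
    calc C * ((x - Δ) * (x + Δ)) ≤ C * ((x - Δ) * (2 * x)) := mul_le_mul_of_nonneg_left this hC0
      _ = (x - Δ) * (C * (2 * x)) := by ring
  have h7 : u * b / m ≤ 1 := by
    rw [div_le_one hm0]; exact hub.le
  have h8 : (x - Δ) * (C * (2 * x)) ≤ x - Δ := by
    rw [hCx2]
    have h5 : 0 ≤ x - Δ := by linarith
    nlinarith
  linarith

section Main

variable {V : Type*} [Fintype V] [DecidableEq V] (H : SimpleGraph V) [DecidableRel H.Adj]

/-- Sufficiency for graphs of maximum degree at most two. -/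
theorem suff_two (hH : ∀ v, H.degree v ≤ 2) (hE : 0 < H.edgeFinset.card) {p q : ℝ}
    (hp : 0 < p) (hpq : p ≤ q) (hq1 : q < 1)
    (hcond : (nDeg H 2 : ℝ) * (logit q - logit p) ≤ 2 * H.edgeFinset.card * q * kq q)
    (W : Graphon) (ht : q ^ H.edgeFinset.card ≤ homDensity H W) :
    relEnt p q ≤ cost p W ∧ (cost p W ≤ relEnt p q → ∀ᵐ z : unitInterval × unitInterval, W.W z.1 z.2 = q) := by
  have hq : 0 < q := lt_of_lt_of_le hp hpq
  have hp1 : p < 1 := lt_of_le_of_lt hpq hq1
  have hk := kq_pos hq hq1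
  rcases le_or_gt q W.mean with ha | ha
  · have h := cost_ge_of_mean_ge W hp hpq hq1 ha
    have h0 : 0 ≤ ∫ z : unitInterval × unitInterval, (W.W z.1 z.2 - q) ^ 2 := integral_nonneg fun _ => sq_nonneg _
    constructor
    · have := mul_nonneg hk.le h0
      linarith
    · intro hc
      apply ae_eq_of_int_sq W hq hq1
      by_contra hcon
      push Not at hcon
      have := mul_pos hk hcon
      linarith
  · -- a < q
    suffices hlt : relEnt p q < cost p W from ⟨hlt.le, fun h => absurd h (not_le.2 hlt)⟩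
    have hlin := linear_constraint H W hH hq ht
    have hcard := card_edges H hH
    have hnB2 : (nB H : ℝ) ≤ 2 * nDeg H 2 := by exact_mod_cast nB_le_two H hH
    have hnB1 : (nB H : ℝ) ≤ nDeg H 1 := by exact_mod_cast nB_le_one H
    have hnB0 : (0:ℝ) ≤ nB H := Nat.cast_nonneg _
    have hn1 : (0:ℝ) ≤ nDeg H 1 := Nat.cast_nonneg _
    have hE' : (0:ℝ) < H.edgeFinset.card := by exact_mod_cast hE
    set n2 : ℝ := ((nDeg H 2 : ℕ) : ℝ) with hn2def
    set n1 : ℝ := ((nDeg H 1 : ℕ) : ℝ) with hn1def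
    set nb : ℝ := ((nB H : ℕ) : ℝ) with hnbdef
    set b := q - W.mean with hb
    have hb0 : 0 < b := by linarith
    have hbq : b ≤ q := by have := W.mean_nonneg; linarith
    have hy : W.mean / q - 1 = - (b / q) := by rw [hb]; field_simp; ring
    rw [hy] at hlin
    have hn2 : 0 < n2 := by
      rcases (Nat.cast_nonneg (α := ℝ) (nDeg H 2)).eq_or_lt with h | h
      · exfalso
        have h0 : n2 = 0 := h.symm
        have hnb0 : nb = 0 := by linarith
        rw [h0, hnb0] at hlin
        have : 0 < n1 := by linarith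
        have hbq' : 0 < b / q := by positivity
        nlinarith
      · exact h
    -- constraint in terms of ν, u
    have hν : n1 / n2 * q * b - nb / n2 / 2 * b ^ 2 ≤ W.mom 2 - q ^ 2 := by
      have h1 : 0 ≤ (2 * n2 * (W.mom 2 / q ^ 2 - 1) + 2 * n1 * -(b / q) + nb * (-(b / q)) ^ 2) *
          (q ^ 2 / (2 * n2)) := mul_nonneg hlin (by positivity)
      have h2 : (2 * n2 * (W.mom 2 / q ^ 2 - 1) + 2 * n1 * -(b / q) + nb * (-(b / q)) ^ 2) *
          (q ^ 2 / (2 * n2)) = (W.mom 2 - q ^ 2) - n1 / n2 * q * b + nb / n2 / 2 * b ^ 2 := by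
        field_simp
        ring
      rw [h2] at h1
      linarith
    set ν := n1 / n2 with hνdef
    set u := nb / n2 with hudef
    have hu0 : 0 ≤ u := by positivity
    have hu2 : u ≤ 2 := by rw [hudef, div_le_iff₀ hn2]; linarith
    have huν : u ≤ ν := by rw [hudef, hνdef]; gcongr
    have hν0 : 0 ≤ ν := hu0.trans huν
    -- T
    set Y := 4 * W.mom 2 - 4 * W.mean + 1 with hY
    have hpos : 0 < b * (1 + ν * q) - u / 2 * b ^ 2 := by
      have h1 : u * b ≤ u * q := mul_le_mul_of_nonneg_left hbq hu0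
      have h2 : u * q ≤ ν * q := mul_le_mul_of_nonneg_right huν hq.le
      have h3 : 0 < 1 + ν * q - u / 2 * b := by
        have : 0 ≤ u * q := by positivity
        linarith
      have : b * (1 + ν * q) - u / 2 * b ^ 2 = b * (1 + ν * q - u / 2 * b) := by ring
      rw [this]; positivity
    have hYτ : b * (1 + ν * q) - u / 2 * b ^ 2 ≤ (Y - (1 - 2 * q) ^ 2) / 4 := by
      rw [hY]
      have : (4 * W.mom 2 - 4 * W.mean + 1 - (1 - 2 * q) ^ 2) / 4 = W.mom 2 - q ^ 2 + b := by
        rw [hb]; ring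
      rw [this]
      linarith
    have hYpos : (1 - 2 * q) ^ 2 < Y := by linarith
    have hY0 : 0 ≤ Y := (sq_nonneg _).trans hYpos.le
    set T := Real.sqrt Y with hT
    have hT0 : 0 ≤ T := Real.sqrt_nonneg _
    have hTsq : T ^ 2 = Y := Real.sq_sqrt hY0
    have hjen := gbar_ge_jensen W hT0 hTsq
    have hY1 : Y ≤ 1 := by
      have : W.mom 2 ≤ W.mean := by
        unfold Graphon.mom Graphon.mean
        apply integral_mono (W.integrable_pow 2) W.integrable_W
        intro z
        have h1 := W.nonneg z.1 z.2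
        have h2 := W.le_one z.1 z.2
        simp only
        nlinarith
      rw [hY]; linarith
    have hT1 : T ≤ 1 := by
      rw [hT]; exact Real.sqrt_le_one.2 hY1
    have hτT : |1 - 2 * q| < T := by
      rw [hT]
      apply Real.lt_sqrt_of_sq_lt
      rw [sq_abs]; exact hYpos
    have hcore := core (abs_nonneg (1 - 2 * q)) (abs_lt_one hq hq1) hτT.le hT1
    have hΔ : 0 < g T - g |1 - 2 * q| := sub_pos.2 (g_strictMono (abs_nonneg _) hτT hT1)
    have hcore' : kq q * ((Y - (1 - 2 * q) ^ 2) / 4) + kq q / 6 * (g T - g |1 - 2 * q|) ^ 2 ≤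
        g T - g |1 - 2 * q| := by
      rw [hTsq, sq_abs] at hcore
      unfold kq
      linarith
    have hnum := numeric hq hq1 hb0 hbq (kq_ge hq hq1) hu0 hu2 huν hYτ hΔ hcore'
    -- condition on L
    have hL : logit q - logit p ≤ (2 + ν) * q * kq q := by
      have h1 : n2 * (logit q - logit p) ≤ (2 * n2 + n1) * q * kq q := by
        rw [← hcard]; exact hcond
      have h2 : (2 * n2 + n1) * q * kq q = n2 * ((2 + ν) * q * kq q) := by
        rw [hνdef]; field_simp
      rw [h2] at h1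
      exact le_of_mul_le_mul_left h1 hn2
    have hs := cost_sub W hp hp1 hq hq1
    have e1 : g (2 * q - 1) = g |1 - 2 * q| := by rw [g_abs, ← g_neg]; ring_nf
    have e2 : W.mean - q = - b := by rw [hb]; ring
    rw [e1, e2] at hs
    have h9 : b * ((logit q - logit p) + kq q * (1 - 2 * q)) ≤ b * (kq q * (1 + ν * q)) := by
      apply mul_le_mul_of_nonneg_left _ hb0.le
      have e3 : (2 + ν) * q * kq q + kq q * (1 - 2 * q) = kq q * (1 + ν * q) := by ring
      linarith
    have e4 : -b * ((logit q - logit p) + kq q * (1 - 2 * q)) =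
        -(b * ((logit q - logit p) + kq q * (1 - 2 * q))) := by ring
    rw [e4] at hs
    linarith

end Main

end Pool.Agent.W_MP_bbc525_pr
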